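import Pool.Agent.H92.Tower
import Pool.Graph.R_pool_sql_team_seeded_1acbe0a2.Y683.CG.GSeq

/-!
# Towers which are stable under a finite family of endomorphisms
-/

set_option autoImplicit false

namespace Pool.Agent.H92

open Finset
open Pool.Agent.Y683.CG

section form

variable {X : Type} [CommGroup X]

/-- the products of the images of the terms of a sequence under the endomorphisms `τ i` -/
def phi {d e : ℕ} (τ : Fin d → X →* X) (g : ℕ → X) (a : Fin d → Fin e) (j : ℕ) : X :=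
  ∏ i, τ i (g j) ^ (a i : ℕ)

/-- the subgroup generated by the images of the products over the blocks -/
def clo {d : ℕ} (τ : Fin d → X →* X) (g : ℕ → X) (B : ℕ → Finset ℕ) : Subgroup X :=
  Subgroup.closure {y | ∃ i k, y = τ i (∏ j ∈ B k, g j)}

lemma pow_mod_of {e : ℕ} (hX : ∀ χ : X, χ ^ e = 1) (x : X) (j : ℕ) : x ^ j = x ^ (j % e) := by
  conv_lhs => rw [← Nat.mod_add_div j e]
  rw [pow_add, pow_mul, hX x, one_pow, mul_one]

lemma clo_form {d e : ℕ} (he : 0 < e) (hX : ∀ χ : X, χ ^ e = 1) (τ : Fin d → X →* X) (g : ℕ → X)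
    (B : ℕ → Finset ℕ) {x : X} (hx : x ∈ clo τ g B) :
    ∃ (N : ℕ) (t : ℕ → Fin d → Fin e), x = ∏ i ∈ range N, ∏ k ∈ B i, phi τ g (t i) k := by
  classical
  have h1 : ∃ (N : ℕ) (t : ℕ → Fin d → ℕ), ∀ N' : ℕ, N ≤ N' →
      x = ∏ i ∈ range N', ∏ l, τ l (∏ k ∈ B i, g k) ^ t i l := by
    refine Subgroup.closure_induction (p := fun x _ => ∃ (N : ℕ) (t : ℕ → Fin d → ℕ),
      ∀ N' : ℕ, N ≤ N' → x = ∏ i ∈ range N', ∏ l, τ l (∏ k ∈ B i, g k) ^ t i l) ?_ ?_ ?_ ?_ hx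
    · rintro _ ⟨l, k, rfl⟩
      refine ⟨k + 1, fun i l' => if i = k ∧ l' = l then 1 else 0, fun N' hN' => ?_⟩
      symm
      refine (prod_eq_single k ?_ ?_).trans ((prod_eq_single l ?_ ?_).trans ?_)
      · intro i _ hik
        refine prod_eq_one fun l' _ => ?_
        beta_reduce
        rw [if_neg (fun h => hik h.1), pow_zero]
      · intro hk
        exact absurd (mem_range.2 (by omega)) hk
      · intro l' _ hl'
        beta_reduce
        rw [if_neg (fun h => hl' h.2), pow_zero]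
      · intro hl
        exact absurd (mem_univ l) hl
      · beta_reduce
        rw [if_pos ⟨rfl, rfl⟩, pow_one]
    · refine ⟨0, fun _ _ => 0, fun N' _ => ?_⟩
      rw [prod_eq_one fun i _ => prod_eq_one fun l _ => pow_zero _]
    · rintro x y _ _ ⟨N1, t1, h1⟩ ⟨N2, t2, h2⟩
      refine ⟨max N1 N2, fun i l => t1 i l + t2 i l, fun N' hN' => ?_⟩
      rw [h1 N' (le_of_max_le_left hN'), h2 N' (le_of_max_le_right hN'), ← prod_mul_distrib]
      refine prod_congr rfl fun i _ => ?_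
      rw [← prod_mul_distrib]
      exact prod_congr rfl fun l _ => (pow_add _ _ _).symm
    · rintro x _ ⟨N, t, h⟩
      refine ⟨N, fun i l => t i l * (e - 1), fun N' hN' => ?_⟩
      rw [h N' hN', inv_eq_iff_mul_eq_one, ← prod_mul_distrib]
      refine prod_eq_one fun i _ => ?_
      rw [← prod_mul_distrib]
      refine prod_eq_one fun l _ => ?_
      rw [← pow_add, show t i l + t i l * (e - 1) = e * t i l by
        obtain ⟨d, rfl⟩ : ∃ d, e = d + 1 := ⟨e - 1, by omega⟩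
        rw [Nat.add_sub_cancel]
        ring, pow_mul, hX, one_pow]
  obtain ⟨N, t, h2⟩ := h1
  refine ⟨N, fun i l => ⟨t i l % e, Nat.mod_lt _ he⟩, ?_⟩
  rw [h2 N le_rfl]
  refine prod_congr rfl fun i _ => ?_
  unfold phi
  rw [prod_comm]
  refine prod_congr rfl fun l _ => ?_
  rw [prod_pow, ← map_prod]
  exact pow_mod_of hX _ _

lemma clo_stable {d : ℕ} (τ : Fin d → X →* X) (g : ℕ → X) (B : ℕ → Finset ℕ) (ρ : X →* X)
    (hρ : ∀ i, ∃ j, ∀ x, ρ (τ i x) = τ j x) {x : X} (hx : x ∈ clo τ g B) : ρ x ∈ clo τ g B := by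
  refine Subgroup.closure_induction (p := fun x _ => ρ x ∈ clo τ g B) ?_ ?_ ?_ ?_ hx
  · rintro _ ⟨l, k, rfl⟩
    obtain ⟨j, hj⟩ := hρ l
    rw [hj]
    exact Subgroup.subset_closure ⟨j, k, rfl⟩
  · rw [map_one]
    exact Subgroup.one_mem _
  · intro x y _ _ h1 h2
    rw [map_mul]
    exact Subgroup.mul_mem _ h1 h2
  · intro x _ h1
    rw [map_inv]
    exact Subgroup.inv_mem _ h1

lemma clo_le {d : ℕ} (τ : Fin d → X →* X) (g : ℕ → X) (B : ℕ → Finset ℕ) (i0 : Fin d)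
    (h0 : ∀ x, τ i0 x = x) : Subgroup.closure (Set.range fun k => ∏ j ∈ B k, g j) ≤ clo τ g B := by
  rw [Subgroup.closure_le]
  rintro _ ⟨k, rfl⟩
  exact Subgroup.subset_closure ⟨i0, k, (h0 _).symm⟩

end form

variable {Λ : Submodule ℤ ℂ} {𝔪 : Ideal (integralClosure ℤ ℂ)} {Fil : ℕ → Submodule ℤ ℂ}

theorem towerE (d e : ℕ) (he : 0 < e) (hF : FilX Λ 𝔪 Fil) (n0 : ℕ)
    (hroot : ∀ ζ : ℂ, ζ ^ e = 1 → ζ ∈ mulR Λ ∧
        ∃ y : integralClosure ℤ ℂ, (y : ℂ) = ζ - 1 ∧ y ∈ 𝔪) :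
    ∃ L : ℕ → ℕ, ∀ (X U ι : Type) [CommGroup X] [DecidableEq ι]
      (s : Finset ι → Finset U) (ev : Finset ι → U → X → ℂ) (w : Finset ι → U → ℂ)
      (S : X → Finset ι) (A : Finset ι → Prop) (_ : Lev Λ (Fil (n0 + 1)) e s ev w S A)
      (_ : ∀ T T', T ⊆ T' → A T' → A T)
      (τ : Fin d → X →* X) (g : ℕ → X), (∀ i j, A (S (τ i (g j)))) →
      ∃ B : ℕ → Finset ℕ, (∀ k, (B k).Nonempty ∧ B k ⊆ Ico (L k) (L (k + 1))) ∧
      ∀ x ∈ clo τ g B, ∃ T, A T ∧ S x ⊆ T ∧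
        (∑ u ∈ s T, w T u * ev T u x) - ∑ u ∈ s T, w T u ∈ Fil (n0 + 1) := by
  classical
  obtain ⟨L, hL⟩ := towerI (I := Fin d → Fin e) (fun _ => ⟨0, he⟩) hF n0
  refine ⟨L, fun X U ι _ _ s ev w S A h hmono τ g hg => ?_⟩
  obtain ⟨B, hB1, hB2⟩ := hL X U ι e he hroot s ev w S A h (fun a j => phi τ g a j)
    (fun j => by
      unfold phi
      exact prod_eq_one fun i _ => pow_zero _)
    (fun a j => by
      refine hmono _ ((univ : Finset (Fin d)).biUnion fun i => S (τ i (g j))) ?_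
        (h.bUnion _ _ fun i => hg i j)
      unfold phi
      exact h.prod _ _ fun i hi => (h.pow _ _).trans
        (subset_biUnion_of_mem (fun i => S (τ i (g j))) (mem_univ i)))
  refine ⟨B, hB1, fun x hx => ?_⟩
  obtain ⟨N, t, rfl⟩ := clo_form he h.hX τ g B hx
  exact hB2 N t

end Pool.Agent.H92
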