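import Pool.Agent.H92.Sums

/-!
# Towers of characters at which the twisted sums of a Bianchi form do not vanish
-/

set_option autoImplicit false
set_option linter.unusedSectionVars false

namespace Pool.Agent.H92

open Finset NumberField IsDedekindDomain Filter Topology
open Pool.Agent.K4H55.BI Pool.Agent.K4H55.CX
open Pool.Agent.Y683.CG
open scoped ComplexConjugate

variable {K : Type} [Field K] [NumberField K] [hP : IsPrincipalIdealRing (𝓞 K)] {σ : K →+* ℂ}
  {δ : K} {n : 𝓞 K} {c : Ideal (𝓞 K) → ℂ}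

/-- admissible places -/
def Ad (n : 𝓞 K) (c : Ideal (𝓞 K) → ℂ) (v : HeightOneSpectrum (𝓞 K)) : Prop :=
  (2 : 𝓞 K) ∉ v.asIdeal ∧ n ∉ v.asIdeal ∧ ∃ m : ℤ, c v.asIdeal = m ∧ m % 2 = 1

open Classical in
/-- the sum for the modulus `T` and the function `Y` -/
noncomputable def val (h : IQ K σ δ) (c : Ideal (𝓞 K) → ℂ) (T : Finset (HeightOneSpectrum (𝓞 K)))
    (Y : 𝓞 K → ℂ) : ℂ :=
  stX (ordK h) (fv (ordK h) fun x => c (Ideal.span {x})) (T.image gen) Y

lemma fam_ad [DecidableEq (𝓞 K)] {T : Finset (HeightOneSpectrum (𝓞 K))} (hT : ∀ v ∈ T, Ad n c v) :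
    Fam (T.image gen) :=
  fam_of (A := {v | (2 : 𝓞 K) ∉ v.asIdeal}) (fun _ hv => hv) (fun v hv => (hT v hv).1)

lemma nn_ad [DecidableEq (𝓞 K)] {T : Finset (HeightOneSpectrum (𝓞 K))} (hT : ∀ v ∈ T, Ad n c v) :
    ∀ p ∈ T.image gen, ¬ p ∣ n := by
  intro p hp hd
  obtain ⟨v, hv, rfl⟩ := mem_image.1 hp
  exact (hT v hv).2.1 (gen_dvd.1 hd)

lemma lev (h : IQ K σ δ) {C : ℝ} {w : ℂ} {M : Submodule ℤ ℂ}
    (hMG : MG (ordK h) n (fun x => c (Ideal.span {x})) C w M)
    [DecidableEq (HeightOneSpectrum (𝓞 K))] {T : Finset (HeightOneSpectrum (𝓞 K))} {Y : 𝓞 K → ℂ}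
    (hYp : ∀ x y, (∀ v ∈ T, x - y ∈ v.asIdeal) → Y x = Y y)
    (hYm : ∀ x y, Y (x * y) = Y x * Y y) (R : Finset (HeightOneSpectrum (𝓞 K))) :
    Disjoint R T → (∀ v ∈ R ∪ T, Ad n c v) → (∀ v ∈ R, Y (gen v) * conj (Y (gen v)) = 1) →
    val h c (R ∪ T) Y = (∏ v ∈ R, (c v.asIdeal - Y (gen v) - conj (Y (gen v)))) * val h c T Y := by
  classical
  induction R using Finset.induction_on with
  | empty =>
    intro _ _ _
    rw [Finset.empty_union, Finset.prod_empty, one_mul]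
  | insert q R hq ih =>
    intro hd hA hY
    have hqT : q ∉ T := fun h => Finset.disjoint_left.1 hd (Finset.mem_insert_self q R) h
    have hqRT : q ∉ R ∪ T := by simp [hq, hqT]
    have h1 := ih (hd.mono_left (Finset.subset_insert q R))
      (fun v hv => hA v (by
        rw [Finset.insert_union]
        exact Finset.mem_insert_of_mem hv))
      (fun v hv => hY v (Finset.mem_insert_of_mem hv))
    rw [Finset.insert_union] at hA ⊢
    have h2 : gen q ∉ (R ∪ T).image gen := by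
      intro hmem
      obtain ⟨v, hv, he⟩ := mem_image.1 hmem
      exact hqRT (gen_inj he ▸ hv)
    have h3 := stX_step hMG (S := (R ∪ T).image gen) (q := gen q) h2
      (by rw [← image_insert]; exact fam_ad hA) (by rw [← image_insert]; exact nn_ad hA)
      (X := Y) (fun x y hxy => hYp x y fun v hv => gen_dvd.1 ((dvd_md (mem_image_of_mem _
        (mem_union_right _ hv))).trans hxy)) hYm (hY q (mem_insert_self q R))
    have h4 : val h c (insert q (R ∪ T)) Y = (c q.asIdeal - Y (gen q) - conj (Y (gen q))) *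
        val h c (R ∪ T) Y := by
      unfold val
      rw [image_insert, h3]
      simp only [gen_span]
    rw [h4, h1, Finset.prod_insert hq, mul_assoc]

/-- the lattice -/
def Lat (h : IQ K σ δ) (n : 𝓞 K) (c : Ideal (𝓞 K) → ℂ) (e : ℕ) : Submodule ℤ ℂ :=
  Submodule.span ℤ {ζ : ℂ | ζ ^ e = 1} *
    Submodule.span ℤ (VV (ordK h) n fun x => c (Ideal.span {x}))

lemma lat_fg (h : IQ K σ δ) {C : ℝ} {w : ℂ} {M : Submodule ℤ ℂ}
    (hMG : MG (ordK h) n (fun x => c (Ideal.span {x})) C w M) {e : ℕ} (he : 0 < e) :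
    (Lat h n c e).FG := by
  refine Submodule.FG.mul ?_ (VV_fg hMG)
  refine Submodule.fg_span ?_
  have h1 : {ζ : ℂ | ζ ^ e = 1} = (Polynomial.nthRootsFinset e (1 : ℂ) : Set ℂ) := by
    ext ζ
    rw [Finset.mem_coe, Polynomial.mem_nthRootsFinset he]
    rfl
  rw [h1]
  exact Finset.finite_toSet _

lemma lat_of (h : IQ K σ δ) {e : ℕ} {x : ℂ}
    (hx : x ∈ Submodule.span ℤ (VV (ordK h) n fun x => c (Ideal.span {x}))) :
    x ∈ Lat h n c e := by
  have h1 := Submodule.mul_mem_mul (Submodule.subset_span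
    (show (1 : ℂ) ∈ {ζ : ℂ | ζ ^ e = 1} from one_pow e)) hx
  rwa [one_mul] at h1

lemma lat_root (h : IQ K σ δ) {e : ℕ} {ζ : ℂ} (hζ : ζ ^ e = 1) : ζ ∈ mulR (Lat h n c e) := by
  intro y hy
  refine Submodule.mul_induction_on hy (fun a ha b hb => ?_) fun x y hx hy => ?_
  · rw [← mul_assoc]
    refine Submodule.mul_mem_mul ?_ hb
    refine Submodule.span_induction (p := fun a _ => ζ * a ∈ Submodule.span ℤ {ζ : ℂ | ζ ^ e = 1})
      ?_ ?_ ?_ ?_ ha
    · intro x hx
      refine Submodule.subset_span ?_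
      show (ζ * x) ^ e = 1
      rw [mul_pow, hζ, one_mul]
      exact hx
    · rw [mul_zero]
      exact Submodule.zero_mem _
    · intro x y _ _ hx hy
      rw [mul_add]
      exact Submodule.add_mem _ hx hy
    · intro r x _ hx
      rw [mul_smul_comm]
      exact Submodule.smul_mem _ r hx
  · rw [mul_add]
    exact Submodule.add_mem _ hx hy

lemma lat_hecke (h : IQ K σ δ) {C : ℝ} {w : ℂ} {M : Submodule ℤ ℂ}
    (hMG : MG (ordK h) n (fun x => c (Ideal.span {x})) C w M) {e : ℕ}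
    {v : HeightOneSpectrum (𝓞 K)} (hv : n ∉ v.asIdeal) : c v.asIdeal ∈ mulR (Lat h n c e) := by
  classical
  set D := ordK h with hD
  have hqn : ¬ gen v ∣ n := fun hd => hv (gen_dvd.1 hd)
  have hιq : D.ι (gen v) ≠ 0 := fun h => (gen_prime v).ne_zero (D.inj (by rw [h, map_zero]))
  have hqn' : IsCoprime (gen v) n := prime_coprime D (gen_prime v) hqn
  intro y hy
  refine Submodule.mul_induction_on hy (fun a ha b hb => ?_) fun x y hx hy => ?_
  · rw [mul_left_comm]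
    refine Submodule.mul_mem_mul ha ?_
    refine Submodule.span_induction (p := fun b _ => c v.asIdeal * b ∈
      Submodule.span ℤ (VV D n fun x => c (Ideal.span {x}))) ?_ ?_ ?_ ?_ hb
    · rintro _ ⟨x, m, hm, hmn, rfl⟩
      have hιm : D.ι m ≠ 0 := fun h => hm (D.inj (by rw [h, map_zero]))
      have h1 := hMG.hecke (gen_prime v) hqn (rs_CRS D (gen_prime v).ne_zero) (x := x) hm hmn
      simp only [gen_span] at h1
      rw [h1]
      refine Submodule.add_mem _ (Submodule.subset_span ⟨gen v * x, m, hm, hmn, ?_⟩)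
        (Submodule.sum_mem _ fun b _ => Submodule.subset_span
          ⟨x + m * b, m * gen v, mul_ne_zero hm (gen_prime v).ne_zero, hmn.mul_left hqn', ?_⟩)
      · rw [map_mul, mul_div_assoc]
      · congr 1
        rw [map_add, map_mul, map_mul]
        field_simp
    · rw [mul_zero]
      exact Submodule.zero_mem _
    · intro x y _ _ hx hy
      rw [mul_add]
      exact Submodule.add_mem _ hx hy
    · intro r x _ hx
      rw [mul_smul_comm]
      exact Submodule.smul_mem _ r hx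
  · rw [mul_add]
    exact Submodule.add_mem _ hx hy

lemma conj_root {e : ℕ} {ζ : ℂ} (hζ : ζ ^ e = 1) : (conj ζ) ^ e = 1 := by
  rw [← map_pow, hζ, map_one]

lemma root_mul_conj {e : ℕ} (he : 0 < e) {ζ : ℂ} (hζ : ζ ^ e = 1) : ζ * conj ζ = 1 := by
  have h2 : ‖ζ‖ = 1 := Complex.norm_eq_one_of_pow_eq_one hζ he.ne'
  rw [Complex.mul_conj, Complex.normSq_eq_norm_sq, h2]
  norm_num

lemma root_int {e : ℕ} (he : 0 < e) {ζ : ℂ} (hζ : ζ ^ e = 1) : ζ ∈ integralClosure ℤ ℂ := by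
  refine IsIntegral.of_pow he ?_
  rw [hζ]
  exact isIntegral_one

/-- the factors are congruent -/
lemma fac_q2 (h : IQ K σ δ) {C : ℝ} {w : ℂ} {M : Submodule ℤ ℂ}
    (hMG : MG (ordK h) n (fun x => c (Ideal.span {x})) C w M) {b : ℕ}
    {𝔪 : Ideal (integralClosure ℤ ℂ)} (hp : 𝔪.IsPrime) (h2 : (2 : integralClosure ℤ ℂ) ∈ 𝔪)
    {v : HeightOneSpectrum (𝓞 K)} (hv : Ad n c v) {ζ : ℂ} (hζ : ζ ^ 2 ^ b = 1) :
    Q2 (Lat h n c (2 ^ b)) 𝔪 (c v.asIdeal - ζ - conj ζ) (c v.asIdeal - 1 - 1) := by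
  obtain ⟨-, hn, m, hm, hmo⟩ := hv
  have he : 0 < 2 ^ b := by positivity
  have hc := lat_hecke h hMG (e := 2 ^ b) hn
  have hζ' := conj_root hζ
  have hone : (1 : ℂ) ∈ mulR (Lat h n c (2 ^ b)) := Subalgebra.one_mem _
  set z : integralClosure ℤ ℂ := ⟨ζ, root_int he hζ⟩ with hz
  set z' : integralClosure ℤ ℂ := ⟨conj ζ, root_int he hζ'⟩ with hz'
  have m1 := lam_pow 𝔪 hp h2 b z (Subtype.ext hζ)
  have m2 := lam_pow 𝔪 hp h2 b z' (Subtype.ext hζ')
  refine ⟨Subalgebra.sub_mem _ (Subalgebra.sub_mem _ hc (lat_root h hζ)) (lat_root h hζ'),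
    Subalgebra.sub_mem _ (Subalgebra.sub_mem _ hc hone) hone,
    (m : integralClosure ℤ ℂ) - z - z', (m : integralClosure ℤ ℂ) - 1 - 1, ?_, ?_, ?_, ?_⟩
  · rw [hm, hz, hz']
    push_cast
    rfl
  · rw [hm]
    push_cast
    rfl
  · have e : (m : integralClosure ℤ ℂ) - z - z' - ((m : integralClosure ℤ ℂ) - 1 - 1) =
        -((z - 1) + (z' - 1)) := by ring
    rw [e]
    exact 𝔪.neg_mem (𝔪.add_mem m1 m2)
  · intro hmem
    obtain ⟨r, hr⟩ : ∃ r : ℤ, m = 2 * r + 1 := ⟨m / 2, by omega⟩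
    apply hp.ne_top
    rw [Ideal.eq_top_iff_one]
    have e : (1 : integralClosure ℤ ℂ) = ((m : integralClosure ℤ ℂ) - 1 - 1) -
        2 * ((r : integralClosure ℤ ℂ) - 1) := by
      rw [hr]
      push_cast
      ring
    rw [e]
    exact 𝔪.sub_mem hmem (𝔪.mul_mem_right _ h2)

end Pool.Agent.H92
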