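import Pool.Agent.H92.Fin

/-!
# Several forms at once, and the covering by translates
-/

set_option autoImplicit false
set_option linter.unusedSectionVars false

namespace Pool.Agent.H92

open Finset NumberField IsDedekindDomain
open Pool.Agent.K4H55.BI Pool.Agent.K4H55.CX

section ip

variable {G : Type} [CommGroup G]

/-- A set which contains a product over a nonempty subset of every sequence of `m` elements is syndetic: at
most `2 ^ m` translates of it cover the group. -/
theorem syndetic (P : G → Prop) (m : ℕ)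
    (h : ∀ g : ℕ → G, ∃ S : Finset ℕ, S.Nonempty ∧ S ⊆ range m ∧ P (∏ j ∈ S, g j)) :
    ∃ F : Finset G, F.card ≤ 2 ^ m ∧ ∀ x : G, ∃ y ∈ F, P (x * y) := by
  classical
  by_contra hcon
  push Not at hcon
  have key : ∀ k ≤ m, ∃ g : ℕ → G, ∀ S : Finset ℕ, S.Nonempty → S ⊆ range k → ¬ P (∏ j ∈ S, g j) := by
    intro k
    induction k with
    | zero =>
      intro _
      refine ⟨fun _ => 1, fun S hS hk => ?_⟩
      obtain ⟨x, hx⟩ := hS
      exact absurd (mem_range.1 (hk hx)) (Nat.not_lt_zero x)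
    | succ k ih =>
      intro hk
      obtain ⟨g, hg⟩ := ih (by omega)
      obtain ⟨x, hx⟩ := hcon ((range k).powerset.image fun S => ∏ j ∈ S, g j) (by
        refine card_image_le.trans ?_
        rw [card_powerset, card_range]
        exact Nat.pow_le_pow_right two_pos (by omega))
      have hup : ∀ S : Finset ℕ, S ⊆ range k →
          ∏ j ∈ S, Function.update g k x j = ∏ j ∈ S, g j := by
        intro S hS
        refine prod_congr rfl fun j hj => ?_
        rw [Function.update_of_ne]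
        have := mem_range.1 (hS hj)
        omega
      refine ⟨Function.update g k x, fun S hS hSk => ?_⟩
      by_cases hkS : k ∈ S
      · have h1 : S.erase k ⊆ range k := by
          intro j hj
          have h2 := mem_range.1 (hSk (mem_of_mem_erase hj))
          have h3 := ne_of_mem_erase hj
          exact mem_range.2 (by omega)
        rw [← mul_prod_erase S _ hkS, Function.update_self, hup _ h1]
        exact hx _ (mem_image_of_mem _ (mem_powerset.2 h1))
      · have h1 : S ⊆ range k := by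
          intro j hj
          have h2 := mem_range.1 (hSk hj)
          have h3 : j ≠ k := fun h => hkS (h ▸ hj)
          exact mem_range.2 (by omega)
        rw [hup S h1]
        exact hg S hS h1
  obtain ⟨g, hg⟩ := key m le_rfl
  obtain ⟨S, h1, h2, h3⟩ := h g
  exact hg S h1 h2 h3

end ip

section ram

variable {K : Type} [Field K] [NumberField K] [hP : IsPrincipalIdealRing (𝓞 K)]

/-- the theorem of Ramsey type for the property `N` of the characters -/
def RamP (b d : ℕ) (A : HeightOneSpectrum (𝓞 K) → Prop)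
    (N : Finset (HeightOneSpectrum (𝓞 K)) → (𝓞 K → ℂ) → Prop) : Prop :=
  ∃ L : ℕ → ℕ, ∀ (X : Type) [CommGroup X] (T : X → Finset (HeightOneSpectrum (𝓞 K)))
      (χ : X → 𝓞 K → ℂ), CG T χ → (∀ g : X, g ^ 2 ^ b = 1) → (∀ g, ∀ v ∈ T g, A v) →
      ∀ (τ : Fin d → X →* X) (g : ℕ → X),
      ∃ B : ℕ → Finset ℕ, (∀ k, (B k).Nonempty ∧ B k ⊆ Ico (L k) (L (k + 1))) ∧
      ∀ x ∈ clo τ g B, N (T x) (χ x)

lemma ramP_true (b d : ℕ) : RamP b d (fun _ : HeightOneSpectrum (𝓞 K) => True)
    (fun _ _ => True) :=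
  ⟨fun k => k, fun X _ T χ _ _ _ τ g => ⟨fun k => {k}, fun k => ⟨singleton_nonempty k, by simp⟩,
    fun _ _ => trivial⟩⟩

lemma ramP_and {b d : ℕ} {A A' : HeightOneSpectrum (𝓞 K) → Prop}
    {N N' : Finset (HeightOneSpectrum (𝓞 K)) → (𝓞 K → ℂ) → Prop} (h : RamP b d A N)
    (h' : RamP b d A' N') : RamP b d (fun v => A v ∧ A' v) (fun T χ => N T χ ∧ N' T χ) := by
  classical
  obtain ⟨L, hL⟩ := h
  obtain ⟨L', hL'⟩ := h'
  refine ⟨fun k => L (L' k), fun X _ T χ hχ hX hA τ g => ?_⟩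
  obtain ⟨B, hB1, hB2⟩ := hL X T χ hχ hX (fun g v hv => (hA g v hv).1) τ g
  obtain ⟨B', hB1', hB2'⟩ := hL' X T χ hχ hX (fun g v hv => (hA g v hv).2) τ
    fun k => ∏ j ∈ B k, g j
  have hLlt : ∀ k, L k < L (k + 1) := by
    intro k
    obtain ⟨x, hx⟩ := (hB1 k).1
    have h5 := mem_Ico.1 ((hB1 k).2 hx)
    omega
  have hLm : StrictMono L := strictMono_nat_of_lt_succ hLlt
  have hdis : ∀ i j, i ≠ j → Disjoint (B i) (B j) := by
    have h1 : ∀ i j, i < j → Disjoint (B i) (B j) := by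
      intro i j hij
      rw [disjoint_left]
      intro x hx hx'
      have h2 := mem_Ico.1 ((hB1 i).2 hx)
      have h3 := mem_Ico.1 ((hB1 j).2 hx')
      have h4 := hLm.monotone (by omega : i + 1 ≤ j)
      omega
    intro i j hij
    rcases lt_or_gt_of_ne hij with h2 | h2
    · exact h1 i j h2
    · exact (h1 j i h2).symm
  have hprod : ∀ k, ∏ j ∈ (B' k).biUnion B, g j = ∏ i ∈ B' k, ∏ j ∈ B i, g j := fun k =>
    prod_biUnion fun i _ j _ hij => hdis i j hij
  refine ⟨fun k => (B' k).biUnion B, fun k => ⟨?_, ?_⟩, fun x hx => ?_⟩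
  · obtain ⟨i, hi⟩ := (hB1' k).1
    obtain ⟨j, hj⟩ := (hB1 i).1
    exact ⟨j, mem_biUnion.2 ⟨i, hi, hj⟩⟩
  · intro j hj
    obtain ⟨i, hi, hji⟩ := mem_biUnion.1 hj
    have h1 := mem_Ico.1 ((hB1' k).2 hi)
    have h2 := mem_Ico.1 ((hB1 i).2 hji)
    have h3 := hLm.monotone h1.1
    have h4 := hLm.monotone (by omega : i + 1 ≤ L' (k + 1))
    exact mem_Ico.2 ⟨h3.trans h2.1, lt_of_lt_of_le h2.2 h4⟩
  · have h1 : x ∈ clo τ (fun k => ∏ j ∈ B k, g j) B' := by
      unfold clo at hx ⊢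
      simp only [hprod] at hx
      exact hx
    refine ⟨hB2 x ?_, hB2' x h1⟩
    refine (?_ : clo τ (fun k => ∏ j ∈ B k, g j) B' ≤ clo τ g B) h1
    unfold clo
    rw [Subgroup.closure_le]
    rintro _ ⟨i, k, rfl⟩
    beta_reduce
    rw [map_prod]
    exact Subgroup.prod_mem _ fun l _ => Subgroup.subset_closure ⟨i, l, rfl⟩

lemma ramP_mono {b d : ℕ} {A A' : HeightOneSpectrum (𝓞 K) → Prop}
    {N N' : Finset (HeightOneSpectrum (𝓞 K)) → (𝓞 K → ℂ) → Prop} (h : RamP b d A N)
    (hA : ∀ v, A' v → A v) (hN : ∀ T χ, N T χ → N' T χ) : RamP b d A' N' := by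
  obtain ⟨L, hL⟩ := h
  refine ⟨L, fun X _ T χ hχ hX hA' τ g => ?_⟩
  obtain ⟨B, hB1, hB2⟩ := hL X T χ hχ hX (fun g v hv => hA v (hA' g v hv)) τ g
  exact ⟨B, hB1, fun x hx => hN _ _ (hB2 x hx)⟩

theorem ramP_all {b d : ℕ} {m : ℕ} (A : Fin m → HeightOneSpectrum (𝓞 K) → Prop)
    (N : Fin m → Finset (HeightOneSpectrum (𝓞 K)) → (𝓞 K → ℂ) → Prop)
    (h : ∀ i, RamP b d (A i) (N i)) :
    RamP b d (fun v => ∀ i, A i v) (fun T χ => ∀ i, N i T χ) := by
  induction m with
  | zero => exact ramP_mono (ramP_true b d) (fun _ _ => trivial) fun _ _ _ i => i.elim0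
  | succ m ih =>
    have h1 := ih (fun i => A i.castSucc) (fun i => N i.castSucc) fun i => h i.castSucc
    refine ramP_mono (ramP_and h1 (h (Fin.last m))) (fun v hv => ⟨fun i => hv _, hv _⟩)
      fun T χ hT i => ?_
    refine Fin.lastCases ?_ (fun j => ?_) i
    · exact hT.2
    · exact hT.1 j

end ram

end Pool.Agent.H92
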