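import Pool.Agent.H92.Cyc
import Pool.Agent.H92.Multi

/-!
# Towers of characters with congruences between the central values of a Bianchi form
-/

set_option autoImplicit false
set_option linter.unusedSectionVars false

namespace Pool.Agent.H92

open Finset NumberField IsDedekindDomain Filter Topology
open Pool.Agent.K4H55.BI Pool.Agent.K4H55.CX Pool.Agent.K4H55.BK
open Pool.Agent.Y683.CG
open scoped ComplexConjugate

variable {K : Type} [Field K] [NumberField K] [hP : IsPrincipalIdealRing (𝓞 K)] {σ : K →+* ℂ}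
  {δ : K} {n : 𝓞 K} {c : Ideal (𝓞 K) → ℂ}

/-- the values of the primitive -/
lemma vals_le (h : IQ K σ δ) {z : ℂ} (hz : z ∈ AddSubgroup.closure (Vals σ δ n c)) :
    z ∈ Submodule.span ℤ (VV (ordK h) n fun x => c (Ideal.span {x})) := by
  have h1 : AddSubgroup.closure (Vals σ δ n c) ≤
      (Submodule.span ℤ (VV (ordK h) n fun x => c (Ideal.span {x}))).toAddSubgroup := by
    rw [AddSubgroup.closure_le]
    rintro z ⟨x, m, hm, hmn, hz⟩
    refine Submodule.subset_span ⟨x, m, hm, hmn, ?_⟩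
    rw [Fser_eq h] at hz
    exact (fv_eq hz).symm
  exact h1 hz

lemma le_vals (h : IQ K σ δ) {C : ℝ} {w : ℂ} {M : Submodule ℤ ℂ}
    (hMG : MG (ordK h) n (fun x => c (Ideal.span {x})) C w M) {z : ℂ}
    (hz : z ∈ Submodule.span ℤ (VV (ordK h) n fun x => c (Ideal.span {x}))) :
    z ∈ AddSubgroup.closure (Vals σ δ n c) := by
  refine Submodule.span_induction (p := fun z _ => z ∈ AddSubgroup.closure (Vals σ δ n c))
    ?_ ?_ ?_ ?_ hz
  · rintro _ ⟨x, m, hm, hmn, rfl⟩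
    refine AddSubgroup.subset_closure ⟨x, m, hm, hmn, ?_⟩
    rw [Fser_eq h]
    exact hMG.tendsto hm hmn
  · exact AddSubgroup.zero_mem _
  · intro x y _ _ hx hy
    exact AddSubgroup.add_mem _ hx hy
  · intro r x _ hx
    exact AddSubgroup.zsmul_mem _ hx r

lemma odd_part {j : ℤ} (hj : j ≠ 0) : ∃ (a : ℕ) (j' : ℤ), Odd j' ∧ j = 2 ^ a * j' := by
  obtain ⟨a, m, hm, h1⟩ := Nat.exists_eq_two_pow_mul_odd (Int.natAbs_ne_zero.2 hj)
  rcases Int.natAbs_eq j with h2 | h2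
  · refine ⟨a, m, by exact_mod_cast hm, ?_⟩
    rw [h2, h1]
    push_cast
    rfl
  · refine ⟨a, -m, Odd.neg (by exact_mod_cast hm), ?_⟩
    rw [h2, h1]
    push_cast
    ring

/-- the relation between the central values -/
def Cg (h : IQ K σ δ) (c : Ideal (𝓞 K) → ℂ) (T : Finset (HeightOneSpectrum (𝓞 K)))
    (χ : 𝓞 K → ℂ) : Prop :=
  ∃ (k : ℤ) (X : integralClosure ℤ ℂ), Odd k ∧ IsCoprime X 2 ∧
    k * val h c T (br χ) = X * fv (ordK h) (fun x => c (Ideal.span {x})) 0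

/-- **The towers.** -/
theorem bia_cong1 (h : IQ K σ δ) (hf : BF σ δ n c)
    (h0 : fv (ordK h) (fun x => c (Ideal.span {x})) 0 ≠ 0) {ω : ℂ}
    (hω : ∀ l ∈ AddSubgroup.closure (Vals σ δ n c), ∃ j : ℤ, l = j * ω)
    (hω' : ω ∈ AddSubgroup.closure (Vals σ δ n c)) (b0 d : ℕ) :
    RamP (b0 + 1) d (Ad n c) (Cg h c) := by
  classical
  obtain ⟨b, hb⟩ : ∃ b, b = b0 + 1 := ⟨_, rfl⟩
  rw [← hb]
  obtain ⟨C, w, κ, κW, hN⟩ := hf.newf h
  have hMG := hN.mg
  set D := ordK h with hD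
  set e : ℕ := 2 ^ b with he
  have he0 : 0 < e := by positivity
  obtain ⟨𝔪, hmax, hlm⟩ := exists_lam_max
  have hp𝔪 : 𝔪.IsPrime := hmax.isPrime
  have h2𝔪 : (2 : integralClosure ℤ ℂ) ∈ 𝔪 := by exact_mod_cast hlm
  set Λ := Lat h n c e with hΛ
  have hFG : Λ.FG := lat_fg h hMG he0
  set x0 : ℂ := fv D (fun x => c (Ideal.span {x})) 0 with hx0
  have hx0V : x0 ∈ VV D n fun x => c (Ideal.span {x}) :=
    ⟨0, 1, one_ne_zero, isCoprime_one_left, by rw [map_zero, zero_div]⟩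
  have hx0L : x0 ∈ Λ := lat_of h (Submodule.subset_span hx0V)
  have hLne : Λ ≠ ⊥ := by
    intro hbot
    rw [hbot, Submodule.mem_bot] at hx0L
    exact h0 hx0L
  obtain ⟨Fil, hF⟩ := filx_exists Nat.prime_two hFG hLne 𝔪 hmax hlm
  -- the place of `x0` in the filtration
  obtain ⟨n0, hn0, hn1⟩ : ∃ n0, x0 ∈ Fil n0 ∧ x0 ∉ Fil (n0 + 1) := by
    have h1 := hF.sep x0 hx0L h0
    have h2 := Nat.find_spec h1
    have h3 : Nat.find h1 ≠ 0 := by
      intro h3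
      rw [h3] at h2
      exact h2 ((hF.zero _).2 hx0L)
    obtain ⟨n0, hn0⟩ : ∃ n0, Nat.find h1 = n0 + 1 := ⟨Nat.find h1 - 1, by omega⟩
    refine ⟨n0, ?_, ?_⟩
    · have h4 := Nat.find_min h1 (m := n0) (by omega)
      rwa [not_not] at h4
    · rwa [hn0] at h2
  have hroot : ∀ ζ : ℂ, ζ ^ e = 1 → ζ ∈ mulR Λ ∧
      ∃ y : integralClosure ℤ ℂ, (y : ℂ) = ζ - 1 ∧ y ∈ 𝔪 := by
    intro ζ hζ
    refine ⟨lat_root h hζ, (⟨ζ, root_int he0 hζ⟩ : integralClosure ℤ ℂ) - 1, rfl, ?_⟩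
    exact lam_pow 𝔪 hp𝔪 h2𝔪 b _ (Subtype.ext hζ)
  obtain ⟨L, hL⟩ := towerE d e he0 hF n0 hroot
  refine ⟨L, fun X _ T χ hχ hXe hT τ g => ?_⟩
  -- change of the level
  have hlev : ∀ g : X, ∀ T' : Finset (HeightOneSpectrum (𝓞 K)), T g ⊆ T' →
      (∀ v ∈ T', Ad n c v) → ∀ T'' : Finset (HeightOneSpectrum (𝓞 K)), T' ⊆ T'' →
      (∀ v ∈ T'', Ad n c v) →
      val h c T'' (br (χ g)) = (∏ v ∈ T'' \ T', (c v.asIdeal - conj (χ g (gen v)) -
        conj (conj (χ g (gen v))))) * val h c T' (br (χ g)) := by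
    intro g T' h1 h2 T'' h3 h4
    have h5 := lev h hMG (T := T') (Y := br (χ g)) (fun x y hxy => by
        show conj (χ g x) = conj (χ g y)
        rw [(hχ.ch g).prd x y fun v hv => hxy v (h1 hv)]) (fun x y => by
        show conj (χ g (x * y)) = conj (χ g x) * conj (χ g y)
        rw [(hχ.ch g).mul, map_mul]) (T'' \ T') sdiff_disjoint
      (by rw [sdiff_union_of_subset h3]; exact h4) (fun v hv => ?_)
    · rw [sdiff_union_of_subset h3] at h5
      exact h5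
    · have h6 : χ g (gen v) ≠ 0 := by
        rw [(hχ.ch g).ne_iff]
        intro v' hv' hmem
        have h7 : v' = v := gen_na (gen_dvd.2 hmem)
        exact (mem_sdiff.1 hv).2 (h1 (h7 ▸ hv'))
      exact root_mul_conj he0 (conj_root (hχ.root g (hXe g) h6))
  have hrt : ∀ g : X, ∀ T' T'' : Finset (HeightOneSpectrum (𝓞 K)), T g ⊆ T' →
      ∀ v ∈ T'' \ T', (conj (χ g (gen v))) ^ e = 1 := by
    intro g T' T'' h1 v hv
    refine conj_root (hχ.root g (hXe g) ?_)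
    rw [(hχ.ch g).ne_iff]
    intro v' hv' hmem
    have h7 : v' = v := gen_na (gen_dvd.2 hmem)
    exact (mem_sdiff.1 hv).2 (h1 (h7 ▸ hv'))
  have hbr1 : br (χ 1) = fun _ => 1 := by
    funext x
    show conj (χ 1 x) = 1
    rw [hχ.triv, map_one]
  have hone : ∀ T' : Finset (HeightOneSpectrum (𝓞 K)), (∀ v ∈ T', Ad n c v) →
      val h c T' (fun _ => 1) = (∏ v ∈ T', (c v.asIdeal - 1 - 1)) * x0 := by
    intro T' hT'
    have h1 := hlev 1 ∅ (by rw [hχ.T1]) (fun v hv => absurd hv (notMem_empty v)) T'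
      (empty_subset _) hT'
    rw [hbr1, sdiff_empty, val_empty h _ fun _ => rfl] at h1
    rw [h1]
    congr 1
    refine Finset.prod_congr rfl fun v _ => ?_
    rw [hχ.triv, map_one, map_one]
  have hQ1 : ∀ T' : Finset (HeightOneSpectrum (𝓞 K)), (∀ v ∈ T', Ad n c v) →
      Q2 Λ 𝔪 (∏ v ∈ T', (c v.asIdeal - 1 - 1)) (∏ v ∈ T', (c v.asIdeal - 1 - 1)) := by
    intro T' hT'
    refine Q2.prod hp𝔪 _ _ _ fun v hv => ?_
    have h1 := fac_q2 h hMG (b := b) hp𝔪 h2𝔪 (hT' v hv) (ζ := 1) (one_pow _)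
    rwa [map_one] at h1
  have hLev : Lev Λ (Fil (n0 + 1)) e (sT h) (fun _ u g => conj (χ g u)) (wT h c) T
      (fun T' => ∀ v ∈ T', Ad n c v) := by
    refine ⟨hXe, hχ.T1, hχ.supp, fun T' u _ => ?_, fun T' u hu g g' hg hg' => ?_,
      fun T' T'' h1 h2 v hv => ?_, fun v hv => absurd hv (notMem_empty v), fun T' hT' u hu => ?_,
      fun T' T'' h1 h2 h3 g hg hgood => ?_⟩
    · rw [hχ.triv, map_one]
    · have h1 := (mem_filter.1 hu).2
      rw [hχ.mul g g' u (((hχ.ch g).ne_iff u).2 fun v hv => h1 v (hg hv))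
        (((hχ.ch g').ne_iff u).2 fun v hv => h1 v (hg' hv)), map_mul]
    · rcases mem_union.1 hv with h3 | h3
      · exact h1 v h3
      · exact h2 v h3
    · exact lat_of h (Submodule.subset_span ⟨u, md (T'.image gen), (fam_ad hT').md_ne,
        md_coprime D (fam_ad hT') (nn_ad hT'), rfl⟩)
    · have e0 : ∀ T' : Finset (HeightOneSpectrum (𝓞 K)),
          ∑ u ∈ sT h T', wT h c T' u * conj (χ g u) = val h c T' (br (χ g)) :=
        fun T' => sum_sT h T' (br (χ g))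
      rw [e0, sum_sT1] at hgood ⊢
      have e1 := hlev g T' hg h1 T'' h3 h2
      have e2 : val h c T'' (fun _ => 1) = (∏ v ∈ T'' \ T', (c v.asIdeal - 1 - 1)) *
          val h c T' (fun _ => 1) := by
        rw [hone T'' h2, hone T' h1, ← mul_assoc, prod_sdiff h3]
      have hQ : Q2 Λ 𝔪 (∏ v ∈ T'' \ T', (c v.asIdeal - conj (χ g (gen v)) -
          conj (conj (χ g (gen v))))) (∏ v ∈ T'' \ T', (c v.asIdeal - 1 - 1)) := by
        refine Q2.prod hp𝔪 _ _ _ fun v hv => ?_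
        exact fac_q2 h hMG (b := b) hp𝔪 h2𝔪 (h2 v (sdiff_subset hv)) (hrt g T' T'' hg v hv)
      rw [e1, e2]
      set a := ∏ v ∈ T'' \ T', (c v.asIdeal - conj (χ g (gen v)) -
          conj (conj (χ g (gen v)))) with ha
      set a' := ∏ v ∈ T'' \ T', (c v.asIdeal - 1 - 1) with ha'
      set y := val h c T' (br (χ g)) with hy
      set z := val h c T' (fun _ => 1) with hz
      have hz0 : z ∈ Fil n0 := by
        rw [hz, hone T' h1]
        exact hF.mul n0 _ (hQ1 T' h1).1 _ hn0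
      have hy0 : y ∈ Fil n0 := by
        have h1 := Submodule.add_mem _ (hF.anti n0 _ hgood) hz0
        rwa [sub_add_cancel] at h1
      have h2 : a * y - a' * z = (a - a') * y + a' * (y - z) := by ring
      rw [h2]
      obtain ⟨q1, q2, x, x', hx, hx', hxx, -⟩ := hQ
      refine Submodule.add_mem _ (hF.step n0 y hy0 _ (Subalgebra.sub_mem _ q1 q2)
        ⟨x - x', ?_, hxx⟩) (hF.mul _ _ q2 _ hgood)
      push_cast
      rw [hx, hx']
  obtain ⟨B, hB1, hB2⟩ := hL X (𝓞 K) (HeightOneSpectrum (𝓞 K)) (sT h)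
    (fun _ u g => conj (χ g u)) (wT h c) T (fun T' => ∀ v ∈ T', Ad n c v) hLev
    (fun T' T'' h1 h2 v hv => h2 v (h1 hv)) τ g (fun i j => hT _)
  refine ⟨B, hB1, fun x hx => ?_⟩
  obtain ⟨T', hT', hST, hgood⟩ := hB2 x hx
  have e0 : ∑ u ∈ sT h T', wT h c T' u * conj (χ x u) = val h c T' (br (χ x)) :=
    sum_sT h T' (br (χ x))
  rw [e0, sum_sT1, hlev x (T x) subset_rfl (hT x) T' hST hT', hone T' hT'] at hgood
  obtain ⟨q1', -, z, z', hz, hz', hzz, hzm⟩ := hQ1 T' hT'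
  have hQ : Q2 Λ 𝔪 (∏ v ∈ T' \ T x, (c v.asIdeal - conj (χ x (gen v)) -
      conj (conj (χ x (gen v))))) (∏ v ∈ T' \ T x, (c v.asIdeal - 1 - 1)) := by
    refine Q2.prod hp𝔪 _ _ _ fun v hv => ?_
    exact fac_q2 h hMG (b := b) hp𝔪 h2𝔪 (hT' v (sdiff_subset hv)) (hrt x (T x) T' subset_rfl v hv)
  obtain ⟨q1, -, y, y', hy, hy', hyy, hym⟩ := hQ
  have hym' : y ∉ 𝔪 := by
    intro hmem
    apply hym
    have h1 := 𝔪.sub_mem hmem hyy
    rwa [sub_sub_cancel] at h1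
  -- the ring
  obtain ⟨ζ, hζp⟩ : ∃ ζ : ℂ, IsPrimitiveRoot ζ (2 ^ b) :=
    ⟨_, Complex.isPrimitiveRoot_exp (2 ^ b) (by positivity)⟩
  have hζ : ζ ^ 2 ^ b0 = -1 :=
    (hζp.pow (a := 2 ^ b0) (b := 2) (by positivity) (by rw [hb, pow_succ])).eq_neg_one_of_two_right
  have hRZ : RZ ζ ≤ mulR Λ := by
    refine Algebra.adjoin_le ?_
    rintro x rfl
    exact lat_root h hζp.pow_eq_one
  have hroots : ∀ ξ : ℂ, ξ ^ e = 1 → ξ ∈ RZ ζ := by
    intro ξ hξ
    obtain ⟨i, -, rfl⟩ := hζp.eq_pow_of_pow_eq_one hξ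
    exact Subalgebra.pow_mem _ (rz_self ζ) i
  have hcyc : ∀ z ∈ Λ, ∃ r ∈ RZ ζ, z = r * ω := by
    intro z hz
    refine Submodule.mul_induction_on hz (fun a ha b hb => ?_) fun x y hx hy => ?_
    · obtain ⟨j, hj⟩ := hω b (le_vals h hMG hb)
      refine ⟨a * j, Subalgebra.mul_mem _ ?_ (rz_cast ζ j), by rw [hj]; ring⟩
      refine Submodule.span_induction (p := fun a _ => a ∈ RZ ζ) ?_ ?_ ?_ ?_ ha
      · exact fun ξ hξ => hroots ξ hξ
      · exact Subalgebra.zero_mem _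
      · intro x y _ _ hx hy
        exact Subalgebra.add_mem _ hx hy
      · intro r x _ hx
        exact Subalgebra.smul_mem _ hx r
    · obtain ⟨r, hr, rfl⟩ := hx
      obtain ⟨r', hr', rfl⟩ := hy
      exact ⟨r + r', Subalgebra.add_mem _ hr hr', by ring⟩
  have hωL : ω ∈ Λ := lat_of h (vals_le h hω')
  obtain ⟨j0, hj0⟩ := hω x0 (le_vals h hMG (Submodule.subset_span hx0V))
  have hj00 : j0 ≠ 0 := by
    rintro rfl
    apply h0
    rw [hj0]
    simp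
  obtain ⟨a, j, hj, hjj⟩ := odd_part hj00
  have hx0e : x0 = (2 ^ a * (j : ℂ)) * ω := by
    rw [hj0, hjj]
    push_cast
    rfl
  have hvalL : val h c (T x) (br (χ x)) ∈ Λ := by
    rw [← sum_sT]
    refine Submodule.sum_mem _ fun u hu => ?_
    rw [mul_comm]
    have h1 := (mem_filter.1 hu).2
    refine lat_root h (conj_root (hχ.root x (hXe x) (((hχ.ch x).ne_iff u).2 h1))) _ ?_
    exact lat_of h (Submodule.subset_span ⟨u, md ((T x).image gen), (fam_ad (hT x)).md_ne,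
        md_coprime D (fam_ad (hT x)) (nn_ad (hT x)), rfl⟩)
  obtain ⟨r, hr, hre⟩ := hcyc _ hvalL
  rw [hre, hx0e] at hgood
  rw [hx0e] at hn1
  obtain ⟨X, hX, hXr⟩ := ratio hF hp𝔪 h2𝔪 hζ hRZ hωL a hj hn1 hr q1 q1' hy hz' hym' hzm hgood
  refine ⟨j, X, hj, hX, ?_⟩
  rw [hre, hXr]
  show _ = (X : ℂ) * x0
  rw [hx0e]
  ring

theorem bia_cong (h : IQ K σ δ) (hf : BF σ δ n c)
    (h0 : fv (ordK h) (fun x => c (Ideal.span {x})) 0 ≠ 0) {ω : ℂ}
    (hω : ∀ l ∈ AddSubgroup.closure (Vals σ δ n c), ∃ j : ℤ, l = j * ω)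
    (hω' : ω ∈ AddSubgroup.closure (Vals σ δ n c)) (b d : ℕ) :
    RamP b d (Ad n c) (Cg h c) := by
  obtain ⟨L, hL⟩ := bia_cong1 h hf h0 hω hω' b d
  refine ⟨L, fun X _ T χ hχ hX hT τ g => hL X T χ hχ (fun g => ?_) hT τ g⟩
  rw [pow_succ, pow_mul, hX, one_pow]

end Pool.Agent.H92
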