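import Pool.Agent.H92.Bia

/-!
# Towers of characters at which the twisted sums of a Bianchi form do not vanish
-/

set_option autoImplicit false
set_option linter.unusedSectionVars false

namespace Pool.Agent.H92

open Finset NumberField IsDedekindDomain Filter Topology
open Pool.Agent.K4H55.BI Pool.Agent.K4H55.CX
open Pool.Agent.Y683.CG
open scoped ComplexConjugate

variable {K : Type} [Field K] [NumberField K] [hP : IsPrincipalIdealRing (𝓞 K)] {σ : K →+* ℂ}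
  {δ : K} {n : 𝓞 K} {c : Ideal (𝓞 K) → ℂ}

open Classical in
/-- the points of level `T` -/
noncomputable def sT (h : IQ K σ δ) (T : Finset (HeightOneSpectrum (𝓞 K))) : Finset (𝓞 K) :=
  (rs (ordK h) (md (T.image gen))).filter fun x => ∀ v ∈ T, x ∉ v.asIdeal

open Classical in
/-- the weights -/
noncomputable def wT (h : IQ K σ δ) (c : Ideal (𝓞 K) → ℂ) (T : Finset (HeightOneSpectrum (𝓞 K)))
    (x : 𝓞 K) : ℂ :=
  fv (ordK h) (fun x => c (Ideal.span {x})) ((ordK h).ι x / (ordK h).ι (md (T.image gen)))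

lemma sum_sT (h : IQ K σ δ) (T : Finset (HeightOneSpectrum (𝓞 K))) (Y : 𝓞 K → ℂ) :
    ∑ u ∈ sT h T, wT h c T u * Y u = val h c T Y := by
  classical
  unfold sT wT val stX
  rw [Finset.sum_filter]
  refine Finset.sum_congr rfl fun x _ => ?_
  split_ifs with hx
  · rw [cop_one_of fun p hp hd => by
      obtain ⟨v, hv, rfl⟩ := mem_image.1 hp
      exact hx v hv (gen_dvd.1 hd)]
    ring
  · push Not at hx
    obtain ⟨v, hv, hxv⟩ := hx
    rw [cop_zero_of (mem_image_of_mem _ hv) (gen_dvd.2 hxv)]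
    ring

lemma sum_sT1 (h : IQ K σ δ) (T : Finset (HeightOneSpectrum (𝓞 K))) :
    ∑ u ∈ sT h T, wT h c T u = val h c T fun _ => 1 := by
  rw [← sum_sT]
  exact Finset.sum_congr rfl fun u _ => (mul_one _).symm

lemma val_empty (h : IQ K σ δ) (Y : 𝓞 K → ℂ) (hY : ∀ x, Y x = 1) :
    val h c ∅ Y = fv (ordK h) (fun x => c (Ideal.span {x})) 0 := by
  classical
  have h7 := K4H55.BK.bt_empty (D := ordK h) (fv (ordK h) (fun x => c (Ideal.span {x})))
    (fun z y => fv_periodic (ordK h) _ z y)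
  rw [← h7]
  unfold val stX bt
  rw [Finset.image_empty]
  refine Finset.sum_congr rfl fun x _ => ?_
  have h5 : chi (∅ : Finset (𝓞 K)) x = 1 := by unfold chi; simp
  have h6 : cop (∅ : Finset (𝓞 K)) x = 1 := by unfold cop; simp
  rw [h5, h6, hY, one_mul]

lemma exists_lam_max : ∃ lam : Ideal (integralClosure ℤ ℂ), lam.IsMaximal ∧
    ((2 : ℕ) : integralClosure ℤ ℂ) ∈ lam := by
  obtain ⟨lam, hlam, h2⟩ := K4H55.CX.exists_lam
  obtain ⟨m, hm, hle⟩ := Ideal.exists_le_maximal lam hlam.ne_top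
  exact ⟨m, hm, by exact_mod_cast hle h2⟩

/-- **The towers.** -/
theorem bia_tower (h : IQ K σ δ) (hf : BF σ δ n c)
    (h0 : fv (ordK h) (fun x => c (Ideal.span {x})) 0 ≠ 0) (b d : ℕ) :
    ∃ L : ℕ → ℕ, ∀ (X : Type) [CommGroup X] (T : X → Finset (HeightOneSpectrum (𝓞 K)))
      (χ : X → 𝓞 K → ℂ), CG T χ → (∀ g : X, g ^ 2 ^ b = 1) → (∀ g, ∀ v ∈ T g, Ad n c v) →
      ∀ (τ : Fin d → X →* X) (g : ℕ → X),
      ∃ B : ℕ → Finset ℕ, (∀ k, (B k).Nonempty ∧ B k ⊆ Ico (L k) (L (k + 1))) ∧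
      ∀ x ∈ clo τ g B, val h c (T x) (br (χ x)) ≠ 0 := by
  classical
  obtain ⟨C, w, κ, κW, hN⟩ := hf.newf h
  have hMG := hN.mg
  set D := ordK h with hD
  set e : ℕ := 2 ^ b with he
  have he0 : 0 < e := by positivity
  obtain ⟨𝔪, hmax, hlm⟩ := exists_lam_max
  have hp𝔪 : 𝔪.IsPrime := hmax.isPrime
  have h2𝔪 : (2 : integralClosure ℤ ℂ) ∈ 𝔪 := by exact_mod_cast hlm
  set Λ := Lat h n c e with hΛ
  have hFG : Λ.FG := lat_fg h hMG he0
  set x0 : ℂ := fv D (fun x => c (Ideal.span {x})) 0 with hx0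
  have hx0V : x0 ∈ VV D n fun x => c (Ideal.span {x}) :=
    ⟨0, 1, one_ne_zero, isCoprime_one_left, by rw [map_zero, zero_div]⟩
  have hx0L : x0 ∈ Λ := lat_of h (Submodule.subset_span hx0V)
  have hLne : Λ ≠ ⊥ := by
    intro hbot
    rw [hbot, Submodule.mem_bot] at hx0L
    exact h0 hx0L
  obtain ⟨Fil, hF⟩ := filx_exists Nat.prime_two hFG hLne 𝔪 hmax hlm
  -- the place of `x0` in the filtration
  obtain ⟨n0, hn0, hn1⟩ : ∃ n0, x0 ∈ Fil n0 ∧ x0 ∉ Fil (n0 + 1) := by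
    have h1 := hF.sep x0 hx0L h0
    have h2 := Nat.find_spec h1
    have h3 : Nat.find h1 ≠ 0 := by
      intro h3
      rw [h3] at h2
      exact h2 ((hF.zero _).2 hx0L)
    obtain ⟨n0, hn0⟩ : ∃ n0, Nat.find h1 = n0 + 1 := ⟨Nat.find h1 - 1, by omega⟩
    refine ⟨n0, ?_, ?_⟩
    · have h4 := Nat.find_min h1 (m := n0) (by omega)
      rwa [not_not] at h4
    · rwa [hn0] at h2
  have hroot : ∀ ζ : ℂ, ζ ^ e = 1 → ζ ∈ mulR Λ ∧
      ∃ y : integralClosure ℤ ℂ, (y : ℂ) = ζ - 1 ∧ y ∈ 𝔪 := by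
    intro ζ hζ
    refine ⟨lat_root h hζ, (⟨ζ, root_int he0 hζ⟩ : integralClosure ℤ ℂ) - 1, rfl, ?_⟩
    exact lam_pow 𝔪 hp𝔪 h2𝔪 b _ (Subtype.ext hζ)
  obtain ⟨L, hL⟩ := towerE d e he0 hF n0 hroot
  refine ⟨L, fun X _ T χ hχ hXe hT τ g => ?_⟩
  -- change of the level
  have hlev : ∀ g : X, ∀ T' : Finset (HeightOneSpectrum (𝓞 K)), T g ⊆ T' →
      (∀ v ∈ T', Ad n c v) → ∀ T'' : Finset (HeightOneSpectrum (𝓞 K)), T' ⊆ T'' →
      (∀ v ∈ T'', Ad n c v) →
      val h c T'' (br (χ g)) = (∏ v ∈ T'' \ T', (c v.asIdeal - conj (χ g (gen v)) -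
        conj (conj (χ g (gen v))))) * val h c T' (br (χ g)) := by
    intro g T' h1 h2 T'' h3 h4
    have h5 := lev h hMG (T := T') (Y := br (χ g)) (fun x y hxy => by
        show conj (χ g x) = conj (χ g y)
        rw [(hχ.ch g).prd x y fun v hv => hxy v (h1 hv)]) (fun x y => by
        show conj (χ g (x * y)) = conj (χ g x) * conj (χ g y)
        rw [(hχ.ch g).mul, map_mul]) (T'' \ T') sdiff_disjoint
      (by rw [sdiff_union_of_subset h3]; exact h4) (fun v hv => ?_)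
    · rw [sdiff_union_of_subset h3] at h5
      exact h5
    · have h6 : χ g (gen v) ≠ 0 := by
        rw [(hχ.ch g).ne_iff]
        intro v' hv' hmem
        have h7 : v' = v := gen_na (gen_dvd.2 hmem)
        exact (mem_sdiff.1 hv).2 (h1 (h7 ▸ hv'))
      exact root_mul_conj he0 (conj_root (hχ.root g (hXe g) h6))
  have hrt : ∀ g : X, ∀ T' T'' : Finset (HeightOneSpectrum (𝓞 K)), T g ⊆ T' →
      ∀ v ∈ T'' \ T', (conj (χ g (gen v))) ^ e = 1 := by
    intro g T' T'' h1 v hv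
    refine conj_root (hχ.root g (hXe g) ?_)
    rw [(hχ.ch g).ne_iff]
    intro v' hv' hmem
    have h7 : v' = v := gen_na (gen_dvd.2 hmem)
    exact (mem_sdiff.1 hv).2 (h1 (h7 ▸ hv'))
  have hbr1 : br (χ 1) = fun _ => 1 := by
    funext x
    show conj (χ 1 x) = 1
    rw [hχ.triv, map_one]
  have hone : ∀ T' : Finset (HeightOneSpectrum (𝓞 K)), (∀ v ∈ T', Ad n c v) →
      val h c T' (fun _ => 1) = (∏ v ∈ T', (c v.asIdeal - 1 - 1)) * x0 := by
    intro T' hT'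
    have h1 := hlev 1 ∅ (by rw [hχ.T1]) (fun v hv => absurd hv (notMem_empty v)) T'
      (empty_subset _) hT'
    rw [hbr1, sdiff_empty, val_empty h _ fun _ => rfl] at h1
    rw [h1]
    congr 1
    refine Finset.prod_congr rfl fun v _ => ?_
    rw [hχ.triv, map_one, map_one]
  have hQ1 : ∀ T' : Finset (HeightOneSpectrum (𝓞 K)), (∀ v ∈ T', Ad n c v) →
      Q2 Λ 𝔪 (∏ v ∈ T', (c v.asIdeal - 1 - 1)) (∏ v ∈ T', (c v.asIdeal - 1 - 1)) := by
    intro T' hT'
    refine Q2.prod hp𝔪 _ _ _ fun v hv => ?_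
    have h1 := fac_q2 h hMG (b := b) hp𝔪 h2𝔪 (hT' v hv) (ζ := 1) (one_pow _)
    rwa [map_one] at h1
  have hLev : Lev Λ (Fil (n0 + 1)) e (sT h) (fun _ u g => conj (χ g u)) (wT h c) T
      (fun T' => ∀ v ∈ T', Ad n c v) := by
    refine ⟨hXe, hχ.T1, hχ.supp, fun T' u _ => ?_, fun T' u hu g g' hg hg' => ?_,
      fun T' T'' h1 h2 v hv => ?_, fun v hv => absurd hv (notMem_empty v), fun T' hT' u hu => ?_,
      fun T' T'' h1 h2 h3 g hg hgood => ?_⟩
    · rw [hχ.triv, map_one]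
    · have h1 := (mem_filter.1 hu).2
      rw [hχ.mul g g' u (((hχ.ch g).ne_iff u).2 fun v hv => h1 v (hg hv))
        (((hχ.ch g').ne_iff u).2 fun v hv => h1 v (hg' hv)), map_mul]
    · rcases mem_union.1 hv with h3 | h3
      · exact h1 v h3
      · exact h2 v h3
    · exact lat_of h (Submodule.subset_span ⟨u, md (T'.image gen), (fam_ad hT').md_ne,
        md_coprime D (fam_ad hT') (nn_ad hT'), rfl⟩)
    · have e0 : ∀ T' : Finset (HeightOneSpectrum (𝓞 K)),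
          ∑ u ∈ sT h T', wT h c T' u * conj (χ g u) = val h c T' (br (χ g)) :=
        fun T' => sum_sT h T' (br (χ g))
      rw [e0, sum_sT1] at hgood ⊢
      have e1 := hlev g T' hg h1 T'' h3 h2
      have e2 : val h c T'' (fun _ => 1) = (∏ v ∈ T'' \ T', (c v.asIdeal - 1 - 1)) *
          val h c T' (fun _ => 1) := by
        rw [hone T'' h2, hone T' h1, ← mul_assoc, prod_sdiff h3]
      have hQ : Q2 Λ 𝔪 (∏ v ∈ T'' \ T', (c v.asIdeal - conj (χ g (gen v)) -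
          conj (conj (χ g (gen v))))) (∏ v ∈ T'' \ T', (c v.asIdeal - 1 - 1)) := by
        refine Q2.prod hp𝔪 _ _ _ fun v hv => ?_
        exact fac_q2 h hMG (b := b) hp𝔪 h2𝔪 (h2 v (sdiff_subset hv)) (hrt g T' T'' hg v hv)
      rw [e1, e2]
      set a := ∏ v ∈ T'' \ T', (c v.asIdeal - conj (χ g (gen v)) -
          conj (conj (χ g (gen v)))) with ha
      set a' := ∏ v ∈ T'' \ T', (c v.asIdeal - 1 - 1) with ha'
      set y := val h c T' (br (χ g)) with hy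
      set z := val h c T' (fun _ => 1) with hz
      have hz0 : z ∈ Fil n0 := by
        rw [hz, hone T' h1]
        exact hF.mul n0 _ (hQ1 T' h1).1 _ hn0
      have hy0 : y ∈ Fil n0 := by
        have h1 := Submodule.add_mem _ (hF.anti n0 _ hgood) hz0
        rwa [sub_add_cancel] at h1
      have h2 : a * y - a' * z = (a - a') * y + a' * (y - z) := by ring
      rw [h2]
      obtain ⟨q1, q2, x, x', hx, hx', hxx, -⟩ := hQ
      refine Submodule.add_mem _ (hF.step n0 y hy0 _ (Subalgebra.sub_mem _ q1 q2)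
        ⟨x - x', ?_, hxx⟩) (hF.mul _ _ q2 _ hgood)
      push_cast
      rw [hx, hx']
  obtain ⟨B, hB1, hB2⟩ := hL X (𝓞 K) (HeightOneSpectrum (𝓞 K)) (sT h)
    (fun _ u g => conj (χ g u)) (wT h c) T (fun T' => ∀ v ∈ T', Ad n c v) hLev
    (fun T' T'' h1 h2 v hv => h2 v (h1 hv)) τ g (fun i j => hT _)
  refine ⟨B, hB1, fun x hx hx0' => ?_⟩
  obtain ⟨T', hT', hST, hgood⟩ := hB2 x hx
  have e0 : ∑ u ∈ sT h T', wT h c T' u * conj (χ x u) = val h c T' (br (χ x)) :=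
    sum_sT h T' (br (χ x))
  rw [e0, sum_sT1, hlev x (T x) subset_rfl (hT x) T' hST hT', hx0', mul_zero, zero_sub] at hgood
  have h3 := Submodule.neg_mem _ hgood
  rw [neg_neg, hone T' hT'] at h3
  obtain ⟨q1, -, y, y', -, hy', -, hym⟩ := hQ1 T' hT'
  exact hn1 (hF.unit (n0 + 1) _ q1 ⟨y', hy', hym⟩ x0 hx0L h3)

end Pool.Agent.H92
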