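import Pool.Agent.H92.BiaC

/-!
# The ratio of the central values for the characters of a tower
-/

set_option autoImplicit false
set_option linter.unusedSectionVars false

namespace Pool.Agent.H92

open NumberField IsDedekindDomain Filter Topology
open Pool.Agent.K4H55.BI Pool.Agent.K4H55.CX Pool.Agent.K4H55.BK
open scoped ComplexConjugate

variable {K : Type} [Field K] [NumberField K] [hP : IsPrincipalIdealRing (𝓞 K)] {σ : K →+* ℂ}
  {δ : K} {n : 𝓞 K} {c : Ideal (𝓞 K) → ℂ}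

/-- the central value of the twist by a character of a tower -/
theorem cg_val (h : IQ K σ δ) (hf : BF σ δ n c) {T : Finset (HeightOneSpectrum (𝓞 K))}
    {χ : 𝓞 K → ℂ} (hχ : CH T χ) (hT : ∀ v ∈ T, Ad n c v) {z : ℂ}
    (hz : Tendsto (fun t => Fser σ δ c 0 t) (𝓝[>] 0) (𝓝 z)) (hc : Cg h c T χ) :
    ∃ (G : ℂ → ℂ) (τ x : integralClosure ℤ ℂ) (k : ℤ), Differentiable ℂ G ∧
      (∀ s : ℂ, 2 < s.re → HasProd (efx n c χ s) (G s)) ∧ Odd k ∧
      ‖(τ : ℂ)‖ ^ 2 = ∏ v ∈ T, (Ideal.absNorm v.asIdeal : ℝ) ∧ IsCoprime x 2 ∧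
      k * τ * G 1 = x * ((2 * Real.pi / ‖σ δ‖) ^ 2 / (Nat.card (𝓞 K)ˣ : ℂ) * z) := by
  classical
  have hfam : Fam (T.image gen) := fam_ad hT
  obtain ⟨G, h1, h2, h3⟩ := value_x h hf hfam hχ.hc hχ.unit fun v hv => (hT v hv).2.1
  have hneg : χ (-1) = 1 := hχ.unit _ isUnit_one.neg
  obtain ⟨h4, h5⟩ := gx_conj (ordK h) hfam hχ.hc hneg
  obtain ⟨k, X, hk, hX, hkX⟩ := hc
  have e : ∑ x ∈ rs (ordK h) (md (T.image gen)), conj (χ x) *
      fv (ordK h) (fun x => c (Ideal.span {x})) ((ordK h).ι x /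
        (ordK h).ι (md (T.image gen))) = val h c T (br χ) := by
    unfold val stX
    refine Finset.sum_congr rfl fun x _ => ?_
    by_cases hx : ∀ p ∈ T.image gen, ¬ p ∣ x
    · rw [cop_one_of hx, one_mul]
      rfl
    · push Not at hx
      obtain ⟨p, hp, hd⟩ := hx
      have h0 : br χ x = 0 := hχ.hc.br.zero x p hp hd
      have h0' : conj (χ x) = 0 := h0
      rw [h0, h0']
      ring
  have h0 : fv (ordK h) (fun x => c (Ideal.span {x})) 0 = z := by
    rw [Fser_eq h] at hz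
    exact fv_eq hz
  refine ⟨G, ⟨gx (ordK h) (T.image gen) (br χ) 1, gx_int h hχ hfam⟩, X, k, h1, h2, hk, ?_, hX, ?_⟩
  · show ‖gx (ordK h) (T.image gen) (br χ) 1‖ ^ 2 = _
    rw [← h5] at h4
    rw [mul_comm, Complex.mul_conj, Complex.normSq_eq_norm_sq] at h4
    have h6 : ‖gx (ordK h) (T.image gen) (br χ) 1‖ ^ 2 = ((ordK h).nm (md (T.image gen)) : ℝ) := by
      exact_mod_cast h4
    rw [h6]
    have h7 : ∀ S : Finset (HeightOneSpectrum (𝓞 K)), ((ordK h).nm (md (S.image gen)) : ℝ) =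
        ∏ v ∈ S, (Ideal.absNorm v.asIdeal : ℝ) := by
      intro S
      unfold md
      rw [Finset.prod_image fun _ _ _ _ h => gen_inj h]
      induction S using Finset.induction_on with
      | empty => rw [Finset.prod_empty, Finset.prod_empty, nm_one, Nat.cast_one]
      | insert v S hv ih =>
        rw [Finset.prod_insert hv, Finset.prod_insert hv, Ord.nm_mul, Nat.cast_mul, ih]
        congr 2
        have e1 : (ordK h).nm (gen v) = Ideal.absNorm (Ideal.span {gen v}) :=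
          (Ideal.absNorm_span_singleton _).symm
        rw [e1, gen_span]
    exact h7 T
  · show (k : ℂ) * gx (ordK h) (T.image gen) (br χ) 1 * G 1 = _
    rw [h0] at hkX
    have e3 : gx (ordK h) (T.image gen) (br χ) 1 ≠ 0 := gx_ne (ordK h) hfam hχ.hc.br
    rw [h3, e, ← A_eq h]
    have e4 : (k : ℂ) * gx (ordK h) (T.image gen) (br χ) 1 *
        (kap (ordK h) / gx (ordK h) (T.image gen) (br χ) 1 * val h c T (br χ) / nu (𝓞 K)) =
        (k * val h c T (br χ)) * (kap (ordK h) / nu (𝓞 K)) := by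
      field_simp
    rw [e4, hkX]
    ring

end Pool.Agent.H92
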