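import Pool.Graph.R_pool_sql_team_seeded_1acbe0a2.Y683.CG.Tower

/-!
# Blocks on which a polynomial map is constant, for several sequences at once
-/

set_option autoImplicit false

namespace Pool.Agent.H92

open Finset
open Pool.Agent.Y683.CG

/-- For a polynomial map `g` of degree at most `n` with values in the finite group `A` and sequences
`φ a`, `a ∈ I`, there is a nonempty block `B` such that `g (∏_{i ∈ B} φ a i) = g 1` for all `a`. -/
theorem combI {I : Type} [Finite I] (a0 : I) (n : ℕ) : ∀ (A : Type) [AddCommGroup A] [Finite A],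
    ∃ L : ℕ, ∀ (X : Type) [CommGroup X] (φ : I → ℕ → X), (∀ i, φ a0 i = 1) → ∀ g : X → A, PD n g →
      ∃ B : Finset ℕ, B ⊆ range L ∧ B.Nonempty ∧ ∀ a : I, g (∏ i ∈ B, φ a i) = g 1 := by
  classical
  induction n with
  | zero =>
    intro A _ _
    refine ⟨1, fun X _ φ hφ g hg => ⟨{0}, by simp, singleton_nonempty _, fun j => ?_⟩⟩
    have h1 := hg (∏ i ∈ {0}, φ j i) 1
    rwa [mul_one] at h1
  | succ n ih =>
    intro A _ _
    -- separating blocks
    have key : ∀ N : ℕ, ∃ L : ℕ, ∀ (X : Type) [CommGroup X] (φ : I → ℕ → X), (∀ i, φ a0 i = 1) →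
        ∀ g : X → A, PD (n + 1) g → ∃ v : ℕ → Finset ℕ, (∀ i < N, v i ⊆ range L ∧ (v i).Nonempty) ∧
          (∀ i < N, ∀ j < N, i ≠ j → Disjoint (v i) (v j)) ∧
          ∀ j : ℕ → I, g (∏ i ∈ range N, ∏ k ∈ v i, φ (j i) k) =
            g 1 + ∑ i ∈ range N, (g (∏ k ∈ v i, φ (j i) k) - g 1) := by
      intro N
      induction N with
      | zero =>
        refine ⟨0, fun X _ φ hφ g hg => ⟨fun _ => ∅, fun i hi => absurd hi (Nat.not_lt_zero i),
          fun i hi => absurd hi (Nat.not_lt_zero i), fun j => ?_⟩⟩
        simp
      | succ N ihN =>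
        obtain ⟨L, hL⟩ := ihN
        obtain ⟨L', hL'⟩ := ih ((Fin N → I) → A)
        refine ⟨L + L', fun X _ φ hφ g hg => ?_⟩
        obtain ⟨v, hv1, hv2, hv3⟩ := hL X φ hφ g hg
        obtain ⟨B, hB1, hB2, hB3⟩ := hL' X (fun a i => φ a (L + i)) (fun i => hφ _)
          (fun χ t => g ((∏ i : Fin N, ∏ k ∈ v i, φ (t i) k) * χ) - g χ)
          (PD.pi n _ fun t => hg _)
        set w : Finset ℕ := B.map (addLeftEmbedding L) with hw
        have hwprod : ∀ a, ∏ k ∈ w, φ a k = ∏ i ∈ B, φ a (L + i) := by
          intro a
          rw [hw, prod_map]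
          rfl
        have hwmem : ∀ k ∈ w, L ≤ k ∧ k < L + L' := by
          intro k hk
          obtain ⟨b, hb, rfl⟩ := mem_map.1 hk
          have := mem_range.1 (hB1 hb)
          simp only [addLeftEmbedding_apply]
          omega
        refine ⟨Function.update v N w, fun i hi => ?_, fun i hi j hj hij => ?_, fun j => ?_⟩
        · by_cases h : i = N
          · subst h
            rw [Function.update_self]
            exact ⟨fun k hk => mem_range.2 (hwmem k hk).2, hB2.map⟩
          · rw [Function.update_of_ne h]
            obtain ⟨h1, h2⟩ := hv1 i (by omega)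
            exact ⟨h1.trans (range_subset_range.2 (by omega)), h2⟩
        · have hdis : ∀ i < N, Disjoint (v i) w := by
            intro i hi
            rw [disjoint_left]
            intro k hk hkw
            have h1 := mem_range.1 ((hv1 i hi).1 hk)
            have h2 := (hwmem k hkw).1
            omega
          by_cases h : i = N
          · subst h
            rw [Function.update_self, Function.update_of_ne (Ne.symm hij)]
            exact (hdis j (by omega)).symm
          · rw [Function.update_of_ne h]
            by_cases h' : j = N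
            · subst h'
              rw [Function.update_self]
              exact hdis i (by omega)
            · rw [Function.update_of_ne h']
              exact hv2 i (by omega) j (by omega) hij
        · have hlt : ∀ i ∈ range N, Function.update v N w i = v i := by
            intro i hi
            rw [Function.update_of_ne]
            have := mem_range.1 hi
            omega
          rw [prod_range_succ, sum_range_succ, Function.update_self,
            prod_congr rfl (g := fun i => ∏ k ∈ v i, φ (j i) k) (fun i hi => by rw [hlt i hi]),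
            sum_congr rfl (g := fun i => g (∏ k ∈ v i, φ (j i) k) - g 1)
              (fun i hi => by rw [hlt i hi])]
          have h1 := congrFun (hB3 (j N)) (fun i : Fin N => j i)
          have h2 : ∏ i : Fin N, ∏ k ∈ v i, φ (j i) k = ∏ i ∈ range N, ∏ k ∈ v i, φ (j i) k :=
            Fin.prod_univ_eq_prod_range (fun i => ∏ k ∈ v i, φ (j i) k) N
          simp only [mul_one] at h1
          rw [h2, ← hwprod, hv3 j] at h1
          have h3 := eq_add_of_sub_eq h1
          rw [h3]
          abel
    obtain ⟨L, hL⟩ := key (Nat.card (I → A) * Nat.card A)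
    refine ⟨L, fun X _ φ hφ g hg => ?_⟩
    obtain ⟨v, hv1, hv2, hv3⟩ := hL X φ hφ g hg
    set N := Nat.card (I → A) * Nat.card A with hN
    have : Fintype A := Fintype.ofFinite A
    have : Fintype I := Fintype.ofFinite I
    set c : ℕ → I → A := fun i a => g (∏ k ∈ v i, φ a k) - g 1 with hc
    obtain ⟨y, -, hy⟩ := exists_le_card_fiber_of_mul_le_card_of_maps_to (s := range N)
      (t := (univ : Finset (I → A))) (f := c) (n := Nat.card A) (fun i _ => mem_univ _)
      ⟨fun _ => 0, mem_univ _⟩ (by
        rw [card_range, card_univ, hN, Nat.card_eq_fintype_card (α := I → A)])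
    obtain ⟨J, hJ, hJc⟩ := exists_subset_card_eq hy
    have hJr : ∀ i ∈ J, i < N := fun i hi => mem_range.1 (mem_filter.1 (hJ hi)).1
    have hJy : ∀ i ∈ J, c i = y := fun i hi => (mem_filter.1 (hJ hi)).2
    have hdis : ∀ i ∈ J, ∀ j ∈ J, i ≠ j → Disjoint (v i) (v j) :=
      fun i hi j hj hij => hv2 i (hJr i hi) j (hJr j hj) hij
    refine ⟨J.biUnion v, ?_, ?_, fun a => ?_⟩
    · intro k hk
      obtain ⟨i, hi, hki⟩ := mem_biUnion.1 hk
      exact (hv1 i (hJr i hi)).1 hki
    · have h1 : 0 < Nat.card A := Nat.card_pos
      have h2 : J.Nonempty := by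
        rw [← card_pos, hJc]
        exact h1
      obtain ⟨i, hi⟩ := h2
      obtain ⟨k, hk⟩ := (hv1 i (hJr i hi)).2
      exact ⟨k, mem_biUnion.2 ⟨i, hi, hk⟩⟩
    · rw [prod_biUnion hdis]
      have h1 := hv3 (fun i => if i ∈ J then a else a0)
      have hJN : J ⊆ range N := fun i hi => mem_range.2 (hJr i hi)
      have h2 : ∏ i ∈ range N, ∏ k ∈ v i, φ (if i ∈ J then a else a0) k =
          ∏ i ∈ J, ∏ k ∈ v i, φ a k := by
        rw [← prod_subset hJN (fun i _ hi => by
          rw [if_neg hi]
          exact prod_eq_one fun k _ => hφ k)]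
        exact prod_congr rfl fun i hi => by rw [if_pos hi]
      have h3 : ∑ i ∈ range N, (g (∏ k ∈ v i, φ (if i ∈ J then a else a0) k) - g 1) =
          ∑ i ∈ J, (g (∏ k ∈ v i, φ a k) - g 1) := by
        rw [← sum_subset hJN (fun i _ hi => by
          rw [if_neg hi, prod_eq_one fun k _ => hφ k, sub_self])]
        exact sum_congr rfl fun i hi => by rw [if_pos hi]
      rw [h2, h3] at h1
      rw [h1]
      have h4 : ∀ i ∈ J, g (∏ k ∈ v i, φ a k) - g 1 = y a := by
        intro i hi
        rw [← hJy i hi]
      rw [sum_congr rfl h4, sum_const, hJc, card_nsmul_eq_zero', add_zero]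

end Pool.Agent.H92
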