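import Pool.Agent.H92.BiaT

/-!
# The ring `ℤ[ζ]` for a root of unity `ζ` of order `2^b`, and congruences
-/

set_option autoImplicit false
set_option linter.unusedSectionVars false

namespace Pool.Agent.H92

open Finset
open Pool.Agent.Y683.CG

/-- the ring generated by `ζ` -/
def RZ (ζ : ℂ) : Subalgebra ℤ ℂ := Algebra.adjoin ℤ {ζ}

lemma rz_self (ζ : ℂ) : ζ ∈ RZ ζ := Algebra.subset_adjoin rfl

lemma rz_int {ζ : ℂ} {b : ℕ} (hζ : ζ ^ 2 ^ b = 1) {r : ℂ} (hr : r ∈ RZ ζ) :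
    r ∈ integralClosure ℤ ℂ := by
  have h1 : RZ ζ ≤ integralClosure ℤ ℂ := by
    refine Algebra.adjoin_le ?_
    rintro x rfl
    exact root_int (by positivity) hζ
  exact h1 hr

lemma geo (x : ℂ) (m : ℕ) : ∃ w : ℂ, w = ∑ i ∈ range m, x ^ i ∧ 1 - x ^ m = (1 - x) * w := by
  refine ⟨_, rfl, ?_⟩
  rw [mul_comm]
  have := geom_sum_mul_neg x m
  rw [← this]

lemma geo_mem {ζ x : ℂ} (hx : x ∈ RZ ζ) (m : ℕ) : ∑ i ∈ range m, x ^ i ∈ RZ ζ :=
  Subalgebra.sum_mem _ fun i _ => Subalgebra.pow_mem _ hx i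

/-- the powers of `1 - ζ` -/
lemma tw_pow {ζ : ℂ} {c : ℕ} (hζ : ζ ^ 2 ^ c = -1) : ∀ i ≤ c, ∃ u ∈ RZ ζ, ∃ v ∈ RZ ζ,
    u * v = 1 ∧ 1 - ζ ^ 2 ^ i = (1 - ζ) ^ 2 ^ i * u := by
  intro i
  induction i with
  | zero =>
    intro _
    exact ⟨1, Subalgebra.one_mem _, 1, Subalgebra.one_mem _, by norm_num, by simp⟩
  | succ i ih =>
    intro hi
    obtain ⟨u, hu, v, hv, huv, h1⟩ := ih (by omega)
    set ξ : ℂ := ζ ^ 2 ^ i with hξ
    have hξR : ξ ∈ RZ ζ := Subalgebra.pow_mem _ (rz_self ζ) _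
    have hξR' : -ξ ∈ RZ ζ := Subalgebra.neg_mem _ hξR
    have hpar : ξ ^ 2 ^ (c - i) = -1 := by
      rw [hξ, ← pow_mul, ← pow_add, show i + (c - i) = c by omega]
      exact hζ
    have hpar' : (-ξ) ^ 2 ^ (c - i) = -1 := by
      rw [neg_pow, hpar]
      have : (-1 : ℂ) ^ 2 ^ (c - i) = 1 := by
        rw [show c - i = (c - i - 1) + 1 by omega, pow_succ, mul_comm, pow_mul]
        norm_num
      rw [this]
      norm_num
    set m : ℕ := 1 + 2 ^ (c - i) with hm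
    have e1 : ξ ^ m = -ξ := by rw [hm, pow_add, hpar, pow_one]; ring
    have e2 : (-ξ) ^ m = ξ := by rw [hm, pow_add, hpar', pow_one]; ring
    obtain ⟨w, hw, h2⟩ := geo ξ m
    obtain ⟨w', hw', h3⟩ := geo (-ξ) m
    have hwR : w ∈ RZ ζ := by rw [hw]; exact geo_mem hξR m
    have hwR' : w' ∈ RZ ζ := by rw [hw']; exact geo_mem hξR' m
    rw [e1] at h2
    rw [e2] at h3
    have hne : 1 - ξ ≠ 0 := by
      intro h0
      have h4 : ξ = 1 := (sub_eq_zero.1 h0).symm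
      rw [h4, one_pow] at hpar
      norm_num at hpar
    have hww : w * w' = 1 := by
      apply mul_left_cancel₀ hne
      rw [mul_one]
      linear_combination -h3 - w' * h2
    refine ⟨u ^ 2 * w, Subalgebra.mul_mem _ (Subalgebra.pow_mem _ hu 2) hwR, v ^ 2 * w',
      Subalgebra.mul_mem _ (Subalgebra.pow_mem _ hv 2) hwR', ?_, ?_⟩
    · linear_combination (u * v + 1) * w * w' * huv + hww
    · have e3 : ζ ^ 2 ^ (i + 1) = ξ ^ 2 := by rw [hξ, ← pow_mul, ← pow_succ]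
      have e4 : (1 - ζ) ^ 2 ^ (i + 1) = ((1 - ζ) ^ 2 ^ i) ^ 2 := by rw [← pow_mul, ← pow_succ]
      rw [e3, e4]
      linear_combination (1 - ξ) * h2 + w * (1 - ξ + (1 - ζ) ^ 2 ^ i * u) * h1

/-- two is a power of `1 - ζ` times a unit -/
lemma tw_two {ζ : ℂ} {c : ℕ} (hζ : ζ ^ 2 ^ c = -1) : ∃ u ∈ RZ ζ, ∃ v ∈ RZ ζ,
    u * v = 1 ∧ 2 = (1 - ζ) ^ 2 ^ c * u := by
  obtain ⟨u, hu, v, hv, huv, h1⟩ := tw_pow hζ c le_rfl
  refine ⟨u, hu, v, hv, huv, ?_⟩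
  rw [← h1, hζ]
  norm_num

lemma rz_mod {ζ r : ℂ} (hr : r ∈ RZ ζ) : ∃ (m : ℤ), ∃ t ∈ RZ ζ, r = m + (1 - ζ) * t := by
  refine Algebra.adjoin_induction (p := fun r _ => ∃ (m : ℤ), ∃ t ∈ RZ ζ, r = m + (1 - ζ) * t)
    ?_ ?_ ?_ ?_ hr
  · rintro x rfl
    exact ⟨1, -1, Subalgebra.neg_mem _ (Subalgebra.one_mem _), by push_cast; ring⟩
  · intro m
    exact ⟨m, 0, Subalgebra.zero_mem _, by simp⟩
  · rintro x y _ _ ⟨m, t, ht, rfl⟩ ⟨m', t', ht', rfl⟩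
    exact ⟨m + m', t + t', Subalgebra.add_mem _ ht ht', by push_cast; ring⟩
  · rintro x y _ _ ⟨m, t, ht, rfl⟩ ⟨m', t', ht', rfl⟩
    refine ⟨m * m', m * t' + m' * t + (1 - ζ) * t * t', ?_, by push_cast; ring⟩
    have h1 : (1 - ζ) ∈ RZ ζ := Subalgebra.sub_mem _ (Subalgebra.one_mem _) (rz_self ζ)
    have hm : ∀ m : ℤ, (m : ℂ) ∈ RZ ζ := fun m => intCast_mem (RZ ζ) m
    exact Subalgebra.add_mem _ (Subalgebra.add_mem _ (Subalgebra.mul_mem _ (hm m) ht')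
      (Subalgebra.mul_mem _ (hm m') ht)) (Subalgebra.mul_mem _ (Subalgebra.mul_mem _ h1 ht) ht')

lemma rz_cast (ζ : ℂ) (m : ℤ) : (m : ℂ) ∈ RZ ζ := by
  exact intCast_mem (RZ ζ) m

/-- the two residue classes -/
lemma rz_cases {ζ : ℂ} {c : ℕ} (hζ : ζ ^ 2 ^ c = -1) {r : ℂ} (hr : r ∈ RZ ζ) :
    (∃ t ∈ RZ ζ, r = 1 + (1 - ζ) * t) ∨ ∃ t ∈ RZ ζ, r = (1 - ζ) * t := by
  obtain ⟨m, t, ht, rfl⟩ := rz_mod hr
  obtain ⟨u, hu, v, hv, huv, h2⟩ := tw_two hζ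
  have h1 : (1 - ζ) ∈ RZ ζ := Subalgebra.sub_mem _ (Subalgebra.one_mem _) (rz_self ζ)
  obtain ⟨k, hk⟩ : ∃ k, 2 ^ c = k + 1 := ⟨2 ^ c - 1, by
    have : 0 < 2 ^ c := by positivity
    omega⟩
  have h3 : (2 : ℂ) = (1 - ζ) * ((1 - ζ) ^ k * u) := by
    rw [h2, hk, pow_succ]
    ring
  have h4 : (1 - ζ) ^ k * u ∈ RZ ζ := Subalgebra.mul_mem _ (Subalgebra.pow_mem _ h1 k) hu
  rcases Int.even_or_odd m with ⟨q, hq⟩ | ⟨q, hq⟩
  · right
    refine ⟨q * ((1 - ζ) ^ k * u) + t, Subalgebra.add_mem _ (Subalgebra.mul_mem _ (rz_cast ζ q) h4)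
      ht, ?_⟩
    rw [hq]
    push_cast
    linear_combination (q : ℂ) * h3
  · left
    refine ⟨q * ((1 - ζ) ^ k * u) + t, Subalgebra.add_mem _ (Subalgebra.mul_mem _ (rz_cast ζ q) h4)
      ht, ?_⟩
    rw [hq]
    push_cast
    linear_combination (q : ℂ) * h3

/-- the decomposition with a bounded exponent -/
lemma rz_dec {ζ : ℂ} {c : ℕ} (hζ : ζ ^ 2 ^ c = -1) (M : ℕ) {r : ℂ} (hr : r ∈ RZ ζ) :
    (∃ k < M, ∃ t ∈ RZ ζ, r = (1 - ζ) ^ k * (1 + (1 - ζ) * t)) ∨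
      ∃ t ∈ RZ ζ, r = (1 - ζ) ^ M * t := by
  induction M with
  | zero => exact Or.inr ⟨r, hr, by simp⟩
  | succ M ih =>
    rcases ih with ⟨k, hk, t, ht, e⟩ | ⟨t, ht, e⟩
    · exact Or.inl ⟨k, by omega, t, ht, e⟩
    · rcases rz_cases hζ ht with ⟨t', ht', e'⟩ | ⟨t', ht', e'⟩
      · exact Or.inl ⟨M, by omega, t', ht', by rw [e, e']⟩
      · exact Or.inr ⟨t', ht', by rw [e, e', pow_succ]; ring⟩

lemma neg_one_pow' {ζ : ℂ} {c : ℕ} (hζ : ζ ^ 2 ^ c = -1) : ζ ^ 2 ^ (c + 1) = 1 := by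
  rw [pow_succ, pow_mul, hζ]
  norm_num

variable {Λ : Submodule ℤ ℂ} {𝔪 : Ideal (integralClosure ℤ ℂ)} {Fil : ℕ → Submodule ℤ ℂ}

/-- `1 - ζ` is in all the primes above two -/
lemma pi_mem {ζ : ℂ} {c : ℕ} (hζ : ζ ^ 2 ^ c = -1) {lam : Ideal (integralClosure ℤ ℂ)}
    (hlam : lam.IsPrime) (h2 : (2 : integralClosure ℤ ℂ) ∈ lam) {π : integralClosure ℤ ℂ}
    (hπ : (π : ℂ) = 1 - ζ) : π ∈ lam := by
  obtain ⟨u, hu, v, hv, huv, h3⟩ := tw_two hζ
  have hζ' := neg_one_pow' hζ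
  set u' : integralClosure ℤ ℂ := ⟨u, rz_int hζ' hu⟩ with hu'
  set v' : integralClosure ℤ ℂ := ⟨v, rz_int hζ' hv⟩ with hv'
  have e1 : π ^ 2 ^ c = 2 * v' := by
    apply Subtype.ext
    push_cast
    rw [hπ]
    show _ = 2 * v
    linear_combination (-v) * h3 - (1 - ζ) ^ 2 ^ c * huv
  have h4 : π ^ 2 ^ c ∈ lam := by
    rw [e1]
    exact lam.mul_mem_right _ h2
  exact hlam.mem_of_pow_mem _ h4

/-- **The ratio.** -/
theorem ratio (hF : FilX Λ 𝔪 Fil) (hp : 𝔪.IsPrime) (h2 : (2 : integralClosure ℤ ℂ) ∈ 𝔪)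
    {ζ : ℂ} {c : ℕ} (hζ : ζ ^ 2 ^ c = -1) (hR : RZ ζ ≤ mulR Λ) {ω : ℂ} (hω : ω ∈ Λ) (a : ℕ)
    {j : ℤ} (hj : Odd j) {M : ℕ} (hx0 : (2 ^ a * (j : ℂ)) * ω ∉ Fil M) {y : ℂ} (hy : y ∈ RZ ζ)
    {E E' : ℂ} (hE : E ∈ mulR Λ) (hE' : E' ∈ mulR Λ) {X X' : integralClosure ℤ ℂ}
    (hX : (X : ℂ) = E) (hX' : (X' : ℂ) = E') (hXm : X ∉ 𝔪) (hXm' : X' ∉ 𝔪)
    (hc : E * (y * ω) - E' * ((2 ^ a * (j : ℂ)) * ω) ∈ Fil M) :
    ∃ x : integralClosure ℤ ℂ, IsCoprime x 2 ∧ y = 2 ^ a * x := by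
  have hζ' := neg_one_pow' hζ
  obtain ⟨u, hu, v, hv, huv, h3⟩ := tw_two hζ
  set π : ℂ := 1 - ζ with hπ
  have hπR : π ∈ RZ ζ := Subalgebra.sub_mem _ (Subalgebra.one_mem _) (rz_self ζ)
  set N : ℕ := 2 ^ c * a with hN
  have h2a : (2 : ℂ) ^ a = π ^ N * u ^ a := by
    rw [h3, mul_pow, ← pow_mul]
  -- lifts
  set up : ∀ r ∈ RZ ζ, integralClosure ℤ ℂ := fun r hr => ⟨r, rz_int hζ' hr⟩ with hup
  have hupc : ∀ (r : ℂ) (hr : r ∈ RZ ζ), ((up r hr : integralClosure ℤ ℂ) : ℂ) = r :=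
    fun r hr => rfl
  have hπm : ∀ lam : Ideal (integralClosure ℤ ℂ), lam.IsPrime →
      (2 : integralClosure ℤ ℂ) ∈ lam → up π hπR ∈ lam := fun lam hlam h2 =>
    pi_mem hζ hlam h2 (hupc π hπR)
  have huv' : up u hu * up v hv = 1 := Subtype.ext huv
  have hun : ∀ lam : Ideal (integralClosure ℤ ℂ), lam.IsPrime → up u hu ∉ lam := by
    intro lam hlam h
    exact hlam.ne_top ((Ideal.eq_top_iff_one _).2 (by
      rw [← huv']
      exact lam.mul_mem_right _ h))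
  have hvn : ∀ lam : Ideal (integralClosure ℤ ℂ), lam.IsPrime → up v hv ∉ lam := by
    intro lam hlam h
    exact hlam.ne_top ((Ideal.eq_top_iff_one _).2 (by
      rw [← huv']
      exact lam.mul_mem_left _ h))
  have honep : ∀ lam : Ideal (integralClosure ℤ ℂ), lam.IsPrime →
      (2 : integralClosure ℤ ℂ) ∈ lam → ∀ t : integralClosure ℤ ℂ, 1 + up π hπR * t ∉ lam := by
    intro lam hlam h2 t h
    have h4 := lam.sub_mem h (lam.mul_mem_right t (hπm lam hlam h2))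
    rw [add_sub_cancel_right] at h4
    exact hlam.ne_top ((Ideal.eq_top_iff_one _).2 h4)
  have hjm : ∀ lam : Ideal (integralClosure ℤ ℂ), lam.IsPrime →
      (2 : integralClosure ℤ ℂ) ∈ lam → (j : integralClosure ℤ ℂ) ∉ lam := by
    intro lam hlam h2 h
    obtain ⟨r, hr⟩ := hj
    refine hlam.ne_top ((Ideal.eq_top_iff_one _).2 ?_)
    have e : (1 : integralClosure ℤ ℂ) = (j : integralClosure ℤ ℂ) -
        2 * (r : integralClosure ℤ ℂ) := by rw [hr]; push_cast; ring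
    rw [e]
    exact lam.sub_mem h (lam.mul_mem_right _ h2)
  have hjR : (j : ℂ) ∈ RZ ζ := rz_cast ζ j
  rcases rz_dec hζ (N + 1) hy with ⟨k, hk, t, ht, e⟩ | ⟨t, ht, e⟩
  · rcases Nat.lt_or_ge k N with hkN | hkN
    · -- the value has too small a valuation
      exfalso
      obtain ⟨l, hl⟩ : ∃ l, N = k + 1 + l := ⟨N - k - 1, by omega⟩
      set s : ℂ := π ^ (l + 1) * u ^ a * j with hs
      have hsR : s ∈ RZ ζ := Subalgebra.mul_mem _ (Subalgebra.mul_mem _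
        (Subalgebra.pow_mem _ hπR _) (Subalgebra.pow_mem _ hu _)) hjR
      have h5 : (2 ^ a * (j : ℂ)) * ω = s * (π ^ k * ω) := by
        rw [h2a, hs, hl]
        ring
      set g : ℂ := E * (1 + π * t) - E' * s with hg
      have hgR : g ∈ mulR Λ := Subalgebra.sub_mem _ (Subalgebra.mul_mem _ hE
        (hR (Subalgebra.add_mem _ (Subalgebra.one_mem _) (Subalgebra.mul_mem _ hπR ht))))
        (Subalgebra.mul_mem _ hE' (hR hsR))
      have h6 : π ^ k * ω ∈ Λ := hR (Subalgebra.pow_mem _ hπR _) ω hω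
      have h7 : g * (π ^ k * ω) ∈ Fil M := by
        have h8 : g * (π ^ k * ω) = E * (y * ω) - E' * ((2 ^ a * (j : ℂ)) * ω) := by
          rw [h5, e, hg]
          ring
        rw [h8]
        exact hc
      have h8 : π ^ k * ω ∈ Fil M := by
        refine hF.unit M g hgR ⟨X * (1 + up π hπR * up t ht) - X' * (up π hπR *
          (up π hπR ^ l * up u hu ^ a * (j : integralClosure ℤ ℂ))), ?_, ?_⟩ _ h6 h7
        · push_cast
          rw [hX, hX', hupc π hπR, hupc t ht, hupc u hu, hg, hs]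
          ring
        · intro hmem
          have h9 := 𝔪.add_mem hmem (𝔪.mul_mem_left X' (𝔪.mul_mem_right
            (up π hπR ^ l * up u hu ^ a * (j : integralClosure ℤ ℂ)) (hπm 𝔪 hp h2)))
          rw [sub_add_cancel] at h9
          rcases hp.mem_or_mem h9 with h10 | h10
          · exact hXm h10
          · exact honep 𝔪 hp h2 _ h10
      apply hx0
      rw [h5]
      exact hF.mul M s (hR hsR) _ h8
    · -- equal valuations
      have hkN' : k = N := by omega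
      subst hkN'
      refine ⟨up v hv ^ a * (1 + up π hπR * up t ht), K4H55.CX.cop_two fun lam hlam hl2 hx => ?_,
        ?_⟩
      · rcases hlam.mem_or_mem hx with h10 | h10
        · exact hvn lam hlam (hlam.mem_of_pow_mem _ h10)
        · exact honep lam hlam hl2 _ h10
      · push_cast
        rw [hupc π hπR, hupc t ht, hupc v hv, e, h2a]
        have h11 : u ^ a * v ^ a = 1 := by rw [← mul_pow, huv, one_pow]
        linear_combination (-(π ^ (2 ^ c * a) * (1 + π * t))) * h11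
  · -- too large a valuation
    exfalso
    set s : ℂ := u ^ a * j with hs
    have hsR : s ∈ RZ ζ := Subalgebra.mul_mem _ (Subalgebra.pow_mem _ hu _) hjR
    have h5 : (2 ^ a * (j : ℂ)) * ω = s * (π ^ N * ω) := by
      rw [h2a, hs]
      ring
    set g : ℂ := E' * s - E * (π * t) with hg
    have hgR : g ∈ mulR Λ := Subalgebra.sub_mem _ (Subalgebra.mul_mem _ hE' (hR hsR))
      (Subalgebra.mul_mem _ hE (hR (Subalgebra.mul_mem _ hπR ht)))
    have h6 : π ^ N * ω ∈ Λ := hR (Subalgebra.pow_mem _ hπR _) ω hω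
    have h7 : g * (π ^ N * ω) ∈ Fil M := by
      have h8 : g * (π ^ N * ω) = -(E * (y * ω) - E' * ((2 ^ a * (j : ℂ)) * ω)) := by
        rw [h5, e, hg]
        ring
      rw [h8]
      exact Submodule.neg_mem _ hc
    have h8 : π ^ N * ω ∈ Fil M := by
      refine hF.unit M g hgR ⟨X' * (up u hu ^ a * (j : integralClosure ℤ ℂ)) -
        X * (up π hπR * up t ht), ?_, ?_⟩ _ h6 h7
      · push_cast
        rw [hX, hX', hupc π hπR, hupc t ht, hupc u hu, hg, hs]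
      · intro hmem
        have h9 := 𝔪.add_mem hmem (𝔪.mul_mem_left X (𝔪.mul_mem_right (up t ht) (hπm 𝔪 hp h2)))
        rw [sub_add_cancel] at h9
        rcases hp.mem_or_mem h9 with h10 | h10
        · exact hXm' h10
        · rcases hp.mem_or_mem h10 with h11 | h11
          · exact hun 𝔪 hp (hp.mem_of_pow_mem _ h11)
          · exact hjm 𝔪 hp h2 h11
    apply hx0
    rw [h5]
    exact hF.mul M s (hR hsR) _ h8

end Pool.Agent.H92
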