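import Pool.Agent.H92.BiaT

/-!
# Towers of characters of an imaginary quadratic field with nonzero central values
-/

set_option autoImplicit false
set_option linter.unusedSectionVars false

namespace Pool.Agent.H92

open NumberField IsDedekindDomain Filter Topology
open Pool.Agent.K4H55.BI Pool.Agent.K4H55.CX
open scoped ComplexConjugate

variable {K : Type} [Field K] [NumberField K] [hP : IsPrincipalIdealRing (𝓞 K)] {σ : K →+* ℂ}
  {δ : K} {n : 𝓞 K} {c : Ideal (𝓞 K) → ℂ}

/-- two entire functions with the same Euler product are equal -/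
lemma eq_of_prod {ι : Type} {f : ℂ → ι → ℂ} {G G' : ℂ → ℂ} (h : Differentiable ℂ G)
    (h' : Differentiable ℂ G') (hp : ∀ s : ℂ, 2 < s.re → HasProd (f s) (G s))
    (hp' : ∀ s : ℂ, 2 < s.re → HasProd (f s) (G' s)) : G = G' := by
  have h1 : AnalyticOnNhd ℂ G Set.univ := fun x _ => h.analyticAt x
  have h2 : AnalyticOnNhd ℂ G' Set.univ := fun x _ => h'.analyticAt x
  have h3 : G =ᶠ[𝓝 (3 : ℂ)] G' := by
    have h4 : {s : ℂ | 2 < s.re} ∈ 𝓝 (3 : ℂ) := by
      refine (isOpen_lt continuous_const Complex.continuous_re).mem_nhds ?_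
      show (2 : ℝ) < (3 : ℂ).re
      norm_num
    filter_upwards [h4] with s hs
    exact (hp s hs).unique (hp' s hs)
  exact h1.eq_of_eventuallyEq h2 h3

/-- the central value of the form is not zero -/
lemma fv_ne (h : IQ K σ δ) (hf : BF σ δ n c) {G : ℂ → ℂ} (hG : Differentiable ℂ G)
    (hp : ∀ s : ℂ, 2 < s.re → HasProd (efx n c (fun _ => 1) s) (G s)) (h1 : G 1 ≠ 0) :
    fv (ordK h) (fun x => c (Ideal.span {x})) 0 ≠ 0 := by
  obtain ⟨z, -, hz⟩ := K4H55.BK.exists_z0 h hf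
  obtain ⟨G', g1, g2, g3⟩ := chr_one h hf hz
  have h2 := eq_of_prod hG g1 hp g2
  intro h0
  apply h1
  rw [h2, g3]
  have h3 : fv (ordK h) (fun x => c (Ideal.span {x})) 0 = z := by
    rw [Fser_eq h] at hz
    exact fv_eq hz
  rw [← h3, h0, mul_zero]

/-- the central value of the twist by a character -/
lemma chr_ne (h : IQ K σ δ) (hf : BF σ δ n c) {T : Finset (HeightOneSpectrum (𝓞 K))}
    {χ : 𝓞 K → ℂ} (hχ : CH T χ) (hT : ∀ v ∈ T, Ad n c v) (hne : val h c T (br χ) ≠ 0) :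
    ∃ G : ℂ → ℂ, Differentiable ℂ G ∧ (∀ s : ℂ, 2 < s.re → HasProd (efx n c χ s) (G s)) ∧
      G 1 ≠ 0 := by
  classical
  have hfam : Fam (T.image gen) := fam_ad hT
  obtain ⟨G, h1, h2, h3⟩ := value_x h hf hfam hχ.hc hχ.unit fun v hv => (hT v hv).2.1
  refine ⟨G, h1, h2, ?_⟩
  have e : ∑ x ∈ rs (ordK h) (md (T.image gen)), conj (χ x) *
      fv (ordK h) (fun x => c (Ideal.span {x})) ((ordK h).ι x /
        (ordK h).ι (md (T.image gen))) = val h c T (br χ) := by
    unfold val stX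
    refine Finset.sum_congr rfl fun x _ => ?_
    by_cases hx : ∀ p ∈ T.image gen, ¬ p ∣ x
    · rw [cop_one_of hx, one_mul]
      rfl
    · push Not at hx
      obtain ⟨p, hp, hd⟩ := hx
      have h0 : br χ x = 0 := hχ.hc.br.zero x p hp hd
      have h0' : conj (χ x) = 0 := h0
      rw [h0, h0']
      ring
  rw [h3, e]
  have hk0 : (kap (ordK h) : ℂ) ≠ 0 := by exact_mod_cast (kap_pos (ordK h)).ne'
  exact div_ne_zero (mul_ne_zero (div_ne_zero hk0 (gx_ne (ordK h) hfam hχ.hc.br)) hne)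
    (nu_ne (ordK h))

end Pool.Agent.H92
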