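import Pool.Agent.H92.Pairs
import Pool.Agent.H92.Multi

/-!
# Theta series and pairs of characters
-/

set_option autoImplicit false
set_option linter.unusedSectionVars false

namespace Pool.Agent.H92

open NumberField IsDedekindDomain Matrix
open scoped Pointwise Kronecker
open Pool.Agent.K4H55.BI (IQ gen gen_span gen_dvd gen_prime gen_na)
open Pool.Agent.K4H55.BD (nv_cases uniq_over pv fin_over low mem_low bad_fin int_mem cjK cjK_cjK
  tau tv mem_tv tau_tau norm_eq mul_tau)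
open Pool.Agent.K4H55.CX (CH efx)
open Pool.Agent.R431.B (FrobSet frob_iff frob_nonempty frob_conj trans_over frob_stab inc inc_inj
  exists_place cpow_quad)
open Pool.Agent.K4H15.BT (Eig det_eig cM cM_mul cM_one frobM frobM_single quad_fac exists_eig
  frobM_conj quad_sandwich cM_inv cM_inv')
open Pool.Agent.K4H15.BZ Pool.Agent.K4H15.BY

variable {K F : Type} [Field K] [NumberField K] [Field F] [NumberField F] [Algebra K F]
  [IsPrincipalIdealRing (𝓞 K)] {σ : K →+* ℂ} {δ : K}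

omit [IsPrincipalIdealRing (𝓞 K)] in
/-- the basis of a representation which contains a character of `Gal(F/K)` -/
lemma theta_basis (h : IQ K σ δ) {ρ : (F ≃ₐ[ℚ] F) →* GL (Fin 2) ℂ} (hirr : Irr ρ)
    {ψ : (F ≃ₐ[K] F) →* ℂ} {w : Fin 2 → ℂ} (hw : w ≠ 0)
    (hψ : ∀ t, Eig w (cM (ρ (inc K F t))) (ψ t)) {s : F ≃ₐ[ℚ] F} (hs : Cx h s) :
    ∃ (b : Module.Basis (Fin 2) ℂ (Fin 2 → ℂ)) (ψ' : (F ≃ₐ[K] F) →* ℂ),
      (∀ t i, Eig (b i) (cM (ρ (inc K F t))) ((![ψ, ψ'] : Fin 2 → _) i t)) ∧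
      ∀ t t' : F ≃ₐ[K] F, inc K F t' = s⁻¹ * inc K F t * s → ψ' t = ψ t' := by
  classical
  have hex : ∀ t : F ≃ₐ[K] F, ∃ t' : F ≃ₐ[K] F, inc K F t' = s⁻¹ * inc K F t * s := by
    intro t
    apply range_fix
    rw [mul_assoc]
    exact Cx.mul h (Cx.inv h hs) (Fx.mul_cx h (fx_inc t) hs)
  choose f hf using hex
  let ψ' : (F ≃ₐ[K] F) →* ℂ :=
    { toFun := fun t => ψ (f t)
      map_one' := by
        have : f 1 = 1 := inc_inj (by rw [hf, map_one]; group)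
        rw [this, map_one]
      map_mul' := fun t u => by
        have : f (t * u) = f t * f u := inc_inj (by rw [map_mul, hf, hf, hf, map_mul]; group)
        rw [this, map_mul] }
  have hψ' : ∀ t t' : F ≃ₐ[K] F, inc K F t' = s⁻¹ * inc K F t * s → ψ' t = ψ t' := by
    intro t t' ht'
    have : f t = t' := inc_inj (by rw [hf, ht'])
    show ψ (f t) = ψ t'
    rw [this]
  have h2 : ∀ t, Eig ((cM (ρ s)).mulVec w) (cM (ρ (inc K F t))) (ψ' t) := by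
    intro t
    show (cM (ρ (inc K F t))).mulVec ((cM (ρ s)).mulVec w) = ψ' t • (cM (ρ s)).mulVec w
    have e : inc K F t * s = s * inc K F (f t) := by rw [hf]; group
    rw [Matrix.mulVec_mulVec, ← cM_mul, ← map_mul, e, map_mul, cM_mul, ← Matrix.mulVec_mulVec,
      hψ (f t), Matrix.mulVec_smul]
    rfl
  have hli : LinearIndependent ℂ ![w, (cM (ρ s)).mulVec w] := by
    rw [LinearIndependent.pair_iff' hw]
    intro l hl
    apply hirr w hw
    intro g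
    rcases fix_or (K := K) h g with h3 | h3
    · obtain ⟨t, rfl⟩ := range_fix h3
      exact ⟨ψ t, hψ t⟩
    · obtain ⟨t, ht⟩ := range_fix (Cx.mul h (Cx.inv h hs) h3)
      have e : g = s * inc K F t := by rw [ht]; group
      refine ⟨ψ t * l, ?_⟩
      show (cM (ρ g)).mulVec w = _
      rw [e, map_mul, cM_mul, ← Matrix.mulVec_mulVec, hψ t, Matrix.mulVec_smul, ← hl, smul_smul]
  let b := basisOfLinearIndependentOfCardEqFinrank hli (by simp)
  refine ⟨b, ψ', fun t i => ?_, hψ'⟩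
  have hb : b i = ![w, (cM (ρ s)).mulVec w] i := by
    rw [coe_basisOfLinearIndependentOfCardEqFinrank]
  rw [hb]
  fin_cases i
  · exact hψ t
  · exact h2 t

lemma tau_gen (h : IQ K σ δ) (w : HeightOneSpectrum (𝓞 K)) :
    Ideal.span {tau h (gen w)} = (tv h w).asIdeal := by
  ext x
  rw [Ideal.mem_span_singleton, mem_tv, ← gen_dvd]
  constructor
  · rintro ⟨y, rfl⟩
    exact ⟨tau h y, by rw [map_mul, tau_tau]⟩
  · rintro ⟨y, hy⟩
    exact ⟨tau h y, by rw [← map_mul, ← hy, tau_tau]⟩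

lemma norm_tv (h : IQ K σ δ) (w : HeightOneSpectrum (𝓞 K)) :
    Ideal.absNorm (tv h w).asIdeal = Ideal.absNorm w.asIdeal := by
  have h1 := norm_eq h (tau h (gen w))
  have h2 := norm_eq h (gen w)
  rw [tau_gen] at h1
  rw [gen_span] at h2
  have h3 := mul_tau h (gen w)
  have h4 := mul_tau h (tau h (gen w))
  rw [tau_tau, mul_comm, h3] at h4
  have h5 : Algebra.norm ℤ (gen w) = Algebra.norm ℤ (tau h (gen w)) := by
    have := h4
    exact_mod_cast this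
  rw [h1, h2] at h5
  exact_mod_cast h5.symm

lemma CH_assoc {T : Finset (HeightOneSpectrum (𝓞 K))} {χ : 𝓞 K → ℂ} (h : CH T χ) {x y : 𝓞 K}
    (hxy : Associated x y) : χ x = χ y := by
  obtain ⟨u, rfl⟩ := hxy
  rw [h.mul, h.unit _ u.isUnit, mul_one]

lemma CH_gen_tv (h : IQ K σ δ) {T : Finset (HeightOneSpectrum (𝓞 K))} {χ : 𝓞 K → ℂ}
    (hχ : CH T χ) (w : HeightOneSpectrum (𝓞 K)) : χ (gen (tv h w)) = χ (tau h (gen w)) := by
  apply CH_assoc hχ
  rw [← Ideal.span_singleton_eq_span_singleton, gen_span, tau_gen]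

/-- `ρ` is irreducible and contains the character `χ_x` of `K` -/
def Th {X : Type} (K : Type) {F : Type} [Field K] [NumberField K] [Field F] [NumberField F]
    [Algebra K F] [IsPrincipalIdealRing (𝓞 K)] (T : X → Finset (HeightOneSpectrum (𝓞 K)))
    (χ : X → 𝓞 K → ℂ) (ρ : (F ≃ₐ[ℚ] F) →* GL (Fin 2) ℂ) (x : X) : Prop :=
  Irr ρ ∧ ∃ (ψ : (F ≃ₐ[K] F) →* ℂ) (w : Fin 2 → ℂ), w ≠ 0 ∧
    (∀ t, Eig w (cM (ρ (inc K F t))) (ψ t)) ∧
    ∀ v : HeightOneSpectrum (𝓞 F), low (K := K) v ∉ T x → ∀ t : F ≃ₐ[K] F,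
      (∀ z : 𝓞 F, t • z - z ^ Ideal.absNorm (low (K := K) v).asIdeal ∈ v.asIdeal) →
      ψ t = χ x (gen (low (K := K) v))

section pair

variable {N : ℕ} {a b n : 𝓞 K} {c : Ideal (𝓞 K) → ℂ} {A : ℕ → ℂ}
  {ρg ρh : (F ≃ₐ[ℚ] F) →* GL (Fin 2) ℂ} {ρ : (F ≃ₐ[ℚ] F) →* GL (Fin 2 × Fin 2) ℂ}
  {X : Type} [CommGroup X] {T : X → Finset (HeightOneSpectrum (𝓞 K))} {χ : X → 𝓞 K → ℂ}

/-- **The `L`-function of the triple product of two theta series** -/
theorem pair_main (h : IQ K σ δ) [IsGalois ℚ F] (hcomm : ∀ s t : F ≃ₐ[K] F, s * t = t * s)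
    {P : HeightOneSpectrum (𝓞 K) → Prop}
    (hP : ∀ v, P v → 2 * (4 * a ^ 3 + 27 * b ^ 2) ∉ v.asIdeal)
    (hAR : AR K F P) (hCG : CG T χ) (hT : ∀ x, ∀ v ∈ T x, P v)
    {γ : X → X} (hγ : ∀ x z, χ (γ x) z = χ x (tau h z)) {x y : X}
    (hx : Th K T χ ρg x) (hy : Th K T χ ρh y)
    (hNV : ∀ z ∈ ({x * y, x * γ y} : Set X), ∃ G : ℂ → ℂ, Differentiable ℂ G ∧
      (∀ s : ℂ, 2 < s.re → HasProd (efx n c (χ z) s) (G s)) ∧ G 1 ≠ 0)
    {m : ℤ} (hm : 2 * (4 * a ^ 3 + 27 * b ^ 2) = (m : 𝓞 K))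
    (hc : ∀ v : HeightOneSpectrum (𝓞 K), 2 * (4 * a ^ 3 + 27 * b ^ 2) ∉ v.asIdeal →
      n ∉ v.asIdeal ∧ c v.asIdeal = (Ideal.absNorm v.asIdeal : ℂ) - pv a b v)
    (hur : ∀ w : HeightOneSpectrum (𝓞 K), 2 * (4 * a ^ 3 + 27 * b ^ 2) ∈ w.asIdeal →
      ∀ p : ℕ, p.Prime → (p : 𝓞 K) ∈ w.asIdeal → (p : 𝓞 K) ∉ w.asIdeal ^ 2)
    (hn : n = (N : 𝓞 K))
    (hA : ∀ p : ℕ, p.Prime → ¬ (p : ℤ) ∣ m → ¬ p ∣ N ∧ ∃ k : ℕ, k ≤ 2 * p ∧ A p = p - k)
    (hc1 : ∀ p : ℕ, p.Prime → ∀ w : HeightOneSpectrum (𝓞 K), (p : 𝓞 K) ∈ w.asIdeal →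
      Ideal.absNorm w.asIdeal = p → c w.asIdeal = A p)
    (hc2 : ∀ p : ℕ, p.Prime → ∀ w : HeightOneSpectrum (𝓞 K), (p : 𝓞 K) ∈ w.asIdeal →
      Ideal.absNorm w.asIdeal = p ^ 2 → c w.asIdeal = A p ^ 2 - (if p ∣ N then 0 else 2 * (p : ℂ)))
    (hρ : ∀ s α, (1 - α • cM (ρ s)).det = kp (cM (ρg s)).trace (cM (ρg s)).det
      (cM (ρh s)).trace (cM (ρh s)).det α) :
    ∃ L : ℂ → ℂ, MeromorphicOn L Set.univ ∧
      (∀ V : Nat.Primes → HeightOneSpectrum (𝓞 F),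
        (∀ p : Nat.Primes, ((p : ℕ) : 𝓞 F) ∈ (V p).asIdeal) → ∀ s : ℂ, 2 < s.re →
        HasProd (fun p : Nat.Primes => eulQ A N ρ (V p) s p) (L s)) ∧
      AnalyticAt ℂ L 1 ∧ L 1 ≠ 0 := by
  classical
  obtain ⟨s, hs⟩ := exists_cx (F := F) h
  obtain ⟨hx0, ψ, w, hw, hψ, hψ2⟩ := hx
  obtain ⟨hy0, φ, w', hw', hφ, hφ2⟩ := hy
  obtain ⟨b1, ψ', hb1, hψ'⟩ := theta_basis h hx0 hw hψ hs
  obtain ⟨b2, φ', hb2, hφ'⟩ := theta_basis h hy0 hw' hφ hs
  -- the law for the conjugate character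
  have hlaw : ∀ v : HeightOneSpectrum (𝓞 F), low (K := K) v ∉ T (γ y) → ∀ t : F ≃ₐ[K] F,
      (∀ z : 𝓞 F, t • z - z ^ Ideal.absNorm (low (K := K) v).asIdeal ∈ v.asIdeal) →
      φ' t = χ (γ y) (gen (low (K := K) v)) := by
    intro v hv t ht
    obtain ⟨t', ht'⟩ : ∃ t' : F ≃ₐ[K] F, inc K F t' = s⁻¹ * inc K F t * s := by
      apply range_fix
      rw [mul_assoc]
      exact Cx.mul h (Cx.inv h hs) (Fx.mul_cx h (fx_inc t) hs)
    rw [hφ' t t' ht', hγ, ← CH_gen_tv h (hCG.ch y), ← low_cv h (Cx.inv h hs)]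
    apply hφ2
    · rw [low_cv h (Cx.inv h hs)]
      intro h1
      have h2 : χ (γ y) (gen (low (K := K) v)) = 0 := by
        rw [hγ, (hCG.ch y).zero]
        refine ⟨_, h1, ?_⟩
        rw [mem_tv, tau_tau]
        exact gen_dvd.1 dvd_rfl
      obtain ⟨v', hv', h3⟩ := ((hCG.ch (γ y)).zero _).1 h2
      have h4 : v' = low (K := K) v := gen_na (gen_dvd.2 h3)
      exact hv (h4 ▸ hv')
    · intro z
      rw [low_cv h (Cx.inv h hs), norm_tv, mem_cv, inv_inv, smul_sub, smul_pow']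
      have h1 := ht (s • z)
      have h2 : s • (t' • z) = t • (s • z) := by
        have h3 : inc K F t' • z = t' • z := rfl
        have h4 : inc K F t • (s • z) = t • (s • z) := rfl
        rw [← h3, ← h4, ht', ← mul_smul, ← mul_smul]
        congr 1
        group
      rw [h2]
      exact h1
  refine an_mainQ (ρg := ρg) (ρh := ρh) h hcomm hP hAR (hb := hb1) (hb' := hb2)
    (T' := ![T (x * y), T (x * γ y)]) (X' := ![χ (x * y), χ (x * γ y)]) (fun i => ?_)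
    (T'' := T x ∪ T y ∪ T (γ y)) (fun v hv => ?_) (fun i v hv t ht => ?_) (fun i => ?_) hm hc hur
    hn hA hc1 hc2 (fun s hs => trace_irr' h hcomm hx0 s hs) hρ
  · fin_cases i
    · exact hCG.ch _
    · exact hCG.ch _
  · simp only [Finset.mem_union] at hv
    rcases hv with (hv | hv) | hv
    · exact hT _ v hv
    · exact hT _ v hv
    · exact hT _ v hv
  · simp only [Finset.mem_union, not_or] at hv
    obtain ⟨⟨h1, h2⟩, h3⟩ := hv
    have hne : ∀ z : X, low (K := K) v ∉ T z → χ z (gen (low (K := K) v)) ≠ 0 := by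
      intro z hz h4
      obtain ⟨v', hv', h5⟩ := ((hCG.ch z).zero _).1 h4
      have h6 : v' = low (K := K) v := gen_na (gen_dvd.2 h5)
      exact hz (h6 ▸ hv')
    fin_cases i
    · show ψ t * φ t = χ (x * y) _
      rw [hCG.mul _ _ _ (hne x h1) (hne y h2), hψ2 v h1 t ht, hφ2 v h2 t ht]
    · show ψ t * φ' t = χ (x * γ y) _
      rw [hCG.mul _ _ _ (hne x h1) (hne _ h3), hψ2 v h1 t ht, hlaw v h3 t ht]
  · fin_cases i
    · exact hNV _ (by simp)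
    · exact hNV _ (by simp)

end pair

end Pool.Agent.H92
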