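import Pool.Agent.H92.TowerD
import Pool.Graph.R_pool_sql_team_seeded_c8625f6e.K4H55.CX.AbL
import Pool.Graph.R_pool_sql_team_seeded_1acbe0a2.Y683.CG.TowerM

/-!
# The sums of a Bianchi form over the residues, for the characters of a group
-/

set_option autoImplicit false
set_option linter.unusedSectionVars false

namespace Pool.Agent.H92

open Finset NumberField IsDedekindDomain Filter Topology
open Pool.Agent.K4H55.BI Pool.Agent.K4H55.CX
open scoped ComplexConjugate

section step

variable {O : Type} [CommRing O]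

/-- the step, for a character with any values -/
theorem stepX [IsDomain O] (ι : O →+* ℂ) (hι : Function.Injective ι) {f : ℂ → ℂ}
    (hf : ∀ z y, f (z + ι y) = f z) {m q : O}
    (hm : m ≠ 0) (hq : q ≠ 0) (hco : IsCoprime q m) {X : O → ℂ} (hX : Prd m X)
    (hXm : ∀ x y, X (x * y) = X x * X y) {Xi : ℂ} (hXq : X q * Xi = 1) {cq : ℂ} {S Q P : Finset O}
    (hS : CRS m S) (hQ : CRS q Q) (hP : CRS (m * q) P)
    (hh : ∀ x, cq * f (ι x / ι m) = f (ι q * (ι x / ι m)) + ∑ b ∈ Q, f ((ι x / ι m + ι b) / ι q)) :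
    (∑ x ∈ P, open Classical in if q ∣ x then 0 else X x * f (ι x / ι (m * q))) =
      (cq - X q - Xi) * ∑ x ∈ S, X x * f (ι x / ι m) := by
  classical
  have hιm : ι m ≠ 0 := fun h => hm (hι (by rw [h, map_zero]))
  have hιq : ι q ≠ 0 := fun h => hq (hι (by rw [h, map_zero]))
  have hfm : Prd m fun x => f (ι x / ι m) := by
    rintro x y ⟨k, hk⟩
    have hx : x = y + m * k := by linear_combination hk
    have : ι x / ι m = ι y / ι m + ι k := by
      rw [hx, map_add, map_mul]
      field_simp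
    simp only
    rw [this, hf]
  have hfmq : Prd (m * q) fun x => f (ι x / ι (m * q)) := by
    rintro x y ⟨k, hk⟩
    have hx : x = y + m * q * k := by linear_combination hk
    have : ι x / ι (m * q) = ι y / ι (m * q) + ι k := by
      rw [hx, map_add, map_mul, map_mul]
      field_simp
    simp only
    rw [this, hf]
  have hXmq : Prd (m * q) X := fun x y h => hX x y ((dvd_mul_right m q).trans h)
  set g : O → ℂ := fun x => X x * f (ι x / ι (m * q)) with hg
  have hgp : Prd (m * q) g := fun x y h => by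
    show X x * f (ι x / ι (m * q)) = X y * f (ι y / ι (m * q))
    have h1 := hfmq x y h
    simp only at h1
    rw [hXmq x y h, h1]
  have h1 : ∀ x, (if q ∣ x then (0 : ℂ) else X x * f (ι x / ι (m * q))) =
      g x - (if q ∣ x then g x else 0) := by
    intro x
    split_ifs <;> simp [hg]
  rw [Finset.sum_congr rfl fun x _ => h1 x, Finset.sum_sub_distrib]
  have h2 := CRS.sum_prod hm hS hQ hP hgp
  have h3 := CRS.sum_mul hq hS hP hgp
  rw [h2, h3]
  have h4 : ∀ y ∈ S, ∑ b ∈ Q, g (y + m * b) =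
      X y * (cq * f (ι y / ι m) - f (ι q * (ι y / ι m))) := by
    intro y _
    have h5 : ∀ b ∈ Q, g (y + m * b) = X y * f ((ι y / ι m + ι b) / ι q) := by
      intro b _
      have h6 : X (y + m * b) = X y := hX _ _ ⟨b, by ring⟩
      have h7 : ι (y + m * b) / ι (m * q) = (ι y / ι m + ι b) / ι q := by
        rw [map_add, map_mul, map_mul]
        field_simp
      simp only [hg]
      rw [h6, h7]
    rw [Finset.sum_congr rfl h5, ← Finset.mul_sum, hh y]
    ring
  have h5 : ∀ x ∈ S, g (q * x) = X q * (X x * f (ι x / ι m)) := by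
    intro x _
    have h7 : ι (q * x) / ι (m * q) = ι x / ι m := by
      rw [map_mul, map_mul]
      field_simp
    simp only [hg]
    rw [hXm, h7]
    ring
  have h6 : ∑ y ∈ S, X y * f (ι q * (ι y / ι m)) = Xi * ∑ y ∈ S, X y * f (ι y / ι m) := by
    have hp : Prd m fun x => X x * f (ι x / ι m) := fun x y h => by
      have h8 := hfm x y h
      simp only at h8 ⊢
      rw [hX x y h, h8]
    have h9 := CRS.sum_unit hco hS hp
    rw [← h9, Finset.mul_sum]
    refine Finset.sum_congr rfl fun y _ => ?_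
    rw [hXm, map_mul]
    have : ι q * ι y / ι m = ι q * (ι y / ι m) := by ring
    rw [this]
    linear_combination (-(X y) * f (ι q * (ι y / ι m))) * hXq
  rw [Finset.sum_congr rfl h4, Finset.sum_congr rfl h5, ← Finset.mul_sum]
  have h7 : ∑ y ∈ S, X y * (cq * f (ι y / ι m) - f (ι q * (ι y / ι m))) =
      cq * ∑ y ∈ S, X y * f (ι y / ι m) - ∑ y ∈ S, X y * f (ι q * (ι y / ι m)) := by
    rw [Finset.mul_sum, ← Finset.sum_sub_distrib]
    refine Finset.sum_congr rfl fun y _ => ?_
    ring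
  rw [h7, h6]
  ring

variable {D : Pool.Agent.K4H55.BI.Ord O} {n : O} {c : O → ℂ} {C : ℝ} {w : ℂ} {M : Submodule ℤ ℂ}

/-- the sum for the modulus `S` and the function `X` -/
noncomputable def stX (D : Pool.Agent.K4H55.BI.Ord O) (f : ℂ → ℂ) (S : Finset O) (X : O → ℂ) : ℂ :=
  ∑ x ∈ rs D (md S), cop S x * X x * f (D.ι x / D.ι (md S))

theorem stX_step [IsDomain O] [DecidableEq O] (h : MG D n c C w M) {S : Finset O} {q : O}
    (hq : q ∉ S) (hS : Fam (insert q S)) (hn : ∀ p ∈ insert q S, ¬ p ∣ n) {X : O → ℂ}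
    (hXp : Prd (md S) X) (hXm : ∀ x y, X (x * y) = X x * X y) {Xi : ℂ} (hXq : X q * Xi = 1) :
    stX D (fv D c) (insert q S) X = (c q - X q - Xi) * stX D (fv D c) S X := by
  classical
  have hS' : Fam S := hS.mono (Finset.subset_insert q S)
  have hqp : Prime q := hS.pr q (Finset.mem_insert_self q S)
  have hm := hS'.md_ne
  have hco : IsCoprime q (md S) := by
    refine prime_coprime D hqp fun hd => ?_
    obtain ⟨p, hp, hd'⟩ := (hqp.dvd_finsetProd_iff _).1 hd
    exact hS.insert_dvd' hq p hp hd'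
  have hmn : IsCoprime (md S) n := md_coprime D hS' fun p hp => hn p (Finset.mem_insert_of_mem hp)
  have hqn : ¬ q ∣ n := hn q (Finset.mem_insert_self q S)
  have hX : Prd (md S) fun x => cop S x * X x :=
    (cop_prd fun p hp => dvd_md hp).mul hXp
  have h1 : ∀ p ∈ S, ¬ p ∣ q := hS.insert_dvd hq
  have hP : CRS (md S * q) (rs D (md S * q)) := rs_CRS D (mul_ne_zero hm hqp.ne_zero)
  have h2 := stepX D.ι D.inj (fv_periodic D c) hm hqp.ne_zero hco hX
    (fun x y => by rw [cop_mul hS'.pr, hXm]; ring)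
    (by rw [cop_one_of h1, one_mul, hXq])
    (rs_CRS D hm) (rs_CRS D hqp.ne_zero) hP (cq := c q)
    (fun x => h.hecke hqp hqn (rs_CRS D hqp.ne_zero) hm hmn)
  unfold stX
  rw [md_insert hq]
  rw [cop_one_of h1, one_mul] at h2
  rw [← h2]
  refine Finset.sum_congr rfl fun x _ => ?_
  have h3 : cop (insert q S) x = (if q ∣ x then 0 else 1) * cop S x := by
    unfold cop
    rw [Finset.prod_insert hq]
  rw [h3]
  split_ifs
  · ring
  · ring

end step

section grp

variable {K : Type} [Field K] [NumberField K] [hP : IsPrincipalIdealRing (𝓞 K)]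
  {X : Type} [CommGroup X]
  {T : X → Finset (HeightOneSpectrum (𝓞 K))} {χ : X → 𝓞 K → ℂ}

/-- a group of characters -/
structure CG (T : X → Finset (HeightOneSpectrum (𝓞 K))) (χ : X → 𝓞 K → ℂ) : Prop where
  ch : ∀ g, CH (T g) (χ g)
  mul : ∀ g h x, χ g x ≠ 0 → χ h x ≠ 0 → χ (g * h) x = χ g x * χ h x

lemma CG.triv (h : CG T χ) (x : 𝓞 K) : χ 1 x = 1 := by
  have h1 : ∀ x, χ 1 x ≠ 0 → χ 1 x = 1 := by
    intro x hx
    have h2 := h.mul 1 1 x hx hx
    rw [mul_one] at h2
    have h3 : χ 1 x * (χ 1 x - 1) = 0 := by linear_combination -h2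
    rcases mul_eq_zero.1 h3 with h4 | h4
    · exact absurd h4 hx
    · exact sub_eq_zero.1 h4
  have hT : T 1 = ∅ := by
    rw [Finset.eq_empty_iff_forall_notMem]
    intro v hv
    obtain ⟨y, -, h2, h3⟩ := (h.ch 1).prim v hv
    exact h3 (h1 y h2)
  apply h1
  rw [(h.ch 1).ne_iff, hT]
  exact fun v hv => absurd hv (Finset.notMem_empty v)

lemma CG.T1 (h : CG T χ) : T 1 = ∅ := by
  rw [Finset.eq_empty_iff_forall_notMem]
  intro v hv
  obtain ⟨y, -, h2, h3⟩ := (h.ch 1).prim v hv
  exact h3 (h.triv y)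

lemma exists_crt [DecidableEq (HeightOneSpectrum (𝓞 K))] (R : Finset (HeightOneSpectrum (𝓞 K)))
    {v : HeightOneSpectrum (𝓞 K)} (hv : v ∉ R) (x : 𝓞 K) :
    ∃ y, y - x ∈ v.asIdeal ∧ ∀ v' ∈ R, y - 1 ∈ v'.asIdeal := by
  classical
  have hco : IsCoprime (gen v) (∏ v' ∈ R, gen v') := by
    refine IsCoprime.prod_right fun v' hv' => gen_cop ?_
    rintro rfl
    exact hv hv'
  obtain ⟨a, b, hab⟩ := hco
  set m := ∏ v' ∈ R, gen v' with hm
  refine ⟨x * (b * m) + a * gen v, ?_, fun v' hv' => ?_⟩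
  · rw [← gen_dvd]
    exact ⟨a - x * a, by linear_combination x * hab⟩
  · rw [← gen_dvd]
    have h1 : gen v' ∣ m := Finset.dvd_prod_of_mem _ hv'
    have h2 : x * (b * m) + a * gen v - 1 = m * ((x - 1) * b) := by linear_combination hab
    rw [h2]
    exact h1.mul_right _

lemma CG.supp [DecidableEq (HeightOneSpectrum (𝓞 K))] (h : CG T χ) (g g' : X) :
    T (g * g') ⊆ T g ∪ T g' := by
  classical
  intro v hv
  by_contra hcon
  rw [mem_union, not_or] at hcon
  obtain ⟨x, h1, h2, h3⟩ := (h.ch (g * g')).prim v hv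
  obtain ⟨y, hy1, hy2⟩ := exists_crt ((T g ∪ T g' ∪ T (g * g')).erase v) (notMem_erase v _) x
  have e1 : χ (g * g') y = χ (g * g') x := by
    refine (h.ch _).prd y x fun v' hv' => ?_
    by_cases hvv : v' = v
    · rw [hvv]; exact hy1
    · have h4 := hy2 v' (mem_erase.2 ⟨hvv, mem_union_right _ hv'⟩)
      have h5 := h1 v' hv' hvv
      have h6 : y - x = (y - 1) - (x - 1) := by ring
      rw [h6]
      exact v'.asIdeal.sub_mem h4 h5
  have e2 : χ g y = 1 := by
    rw [← (h.ch g).one]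
    refine (h.ch g).prd y 1 fun v' hv' => hy2 v' (mem_erase.2 ⟨?_, mem_union_left _
      (mem_union_left _ hv')⟩)
    rintro rfl
    exact hcon.1 hv'
  have e3 : χ g' y = 1 := by
    rw [← (h.ch g').one]
    refine (h.ch g').prd y 1 fun v' hv' => hy2 v' (mem_erase.2 ⟨?_, mem_union_left _
      (mem_union_right _ hv')⟩)
    rintro rfl
    exact hcon.2 hv'
  apply h3
  rw [← e1, h.mul g g' y (by rw [e2]; exact one_ne_zero) (by rw [e3]; exact one_ne_zero), e2, e3,
    one_mul]

lemma CG.root (h : CG T χ) {e : ℕ} (g : X) (hg : g ^ e = 1) {x : 𝓞 K} (hx : χ g x ≠ 0) :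
    χ g x ^ e = 1 := by
  have h1 : ∀ j : ℕ, χ (g ^ j) x = χ g x ^ j := by
    intro j
    induction j with
    | zero => rw [pow_zero, pow_zero, h.triv]
    | succ j ih =>
      rw [pow_succ, pow_succ, h.mul _ _ x (by rw [ih]; exact pow_ne_zero j hx) hx, ih]
  rw [← h1, hg, h.triv]

end grp

end Pool.Agent.H92
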