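import Pool.Agent.H92.Comb

/-!
# Towers in groups of characters, with an action of a finite group
-/

set_option autoImplicit false

namespace Pool.Agent.H92

open Finset
open Pool.Agent.Y683.CG

/-- The data of the character sums at the finite levels `T`. -/
structure Lev {X U ι : Type} [CommGroup X] [DecidableEq ι] (Λ : Submodule ℤ ℂ) (Fl : Submodule ℤ ℂ)
    (e : ℕ) (s : Finset ι → Finset U) (ev : Finset ι → U → X → ℂ) (w : Finset ι → U → ℂ)
    (S : X → Finset ι) (A : Finset ι → Prop) : Prop where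
  hX : ∀ χ : X, χ ^ e = 1
  hS1 : S 1 = ∅
  hSm : ∀ χ φ, S (χ * φ) ⊆ S χ ∪ S φ
  one : ∀ T, ∀ u ∈ s T, ev T u 1 = 1
  mul : ∀ T, ∀ u ∈ s T, ∀ χ φ : X, S χ ⊆ T → S φ ⊆ T → ev T u (χ * φ) = ev T u χ * ev T u φ
  hA : ∀ T T', A T → A T' → A (T ∪ T')
  hA0 : A ∅
  hw : ∀ T, A T → ∀ u ∈ s T, w T u ∈ Λ
  hmono : ∀ T T', A T → A T' → T ⊆ T' → ∀ χ : X, S χ ⊆ T →
      (∑ u ∈ s T, w T u * ev T u χ) - ∑ u ∈ s T, w T u ∈ Fl →
      (∑ u ∈ s T', w T' u * ev T' u χ) - ∑ u ∈ s T', w T' u ∈ Fl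

namespace Lev

variable {X U ι : Type} [CommGroup X] [DecidableEq ι] {Λ Fl : Submodule ℤ ℂ}
    {e : ℕ} {s : Finset ι → Finset U} {ev : Finset ι → U → X → ℂ} {w : Finset ι → U → ℂ}
    {S : X → Finset ι} {A : Finset ι → Prop}

lemma pow (h : Lev Λ Fl e s ev w S A) (χ : X) (j : ℕ) : S (χ ^ j) ⊆ S χ := by
  induction j with
  | zero => rw [pow_zero, h.hS1]; exact empty_subset _
  | succ j ih =>
    rw [pow_succ]
    exact (h.hSm _ _).trans (union_subset ih (Subset.refl _))

lemma inv (h : Lev Λ Fl e s ev w S A) (he : 0 < e) (χ : X) : S χ⁻¹ ⊆ S χ := by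
  have h1 : χ⁻¹ = χ ^ (e - 1) := by
    rw [inv_eq_iff_mul_eq_one, ← pow_succ', Nat.sub_add_cancel he, h.hX]
  rw [h1]
  exact h.pow χ _

lemma prod (h : Lev Λ Fl e s ev w S A) {κ : Type} (R : Finset κ) (f : κ → X) {T : Finset ι}
    (hT : ∀ i ∈ R, S (f i) ⊆ T) : S (∏ i ∈ R, f i) ⊆ T := by
  classical
  induction R using Finset.induction_on with
  | empty => rw [prod_empty, h.hS1]; exact empty_subset _
  | insert a R ha ih =>
    rw [prod_insert ha]
    exact (h.hSm _ _).trans (union_subset (hT a (mem_insert_self a R))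
      (ih fun i hi => hT i (mem_insert_of_mem hi)))

/-- the characters of level `T` -/
def sub (h : Lev Λ Fl e s ev w S A) (he : 0 < e) (T : Finset ι) : Subgroup X where
  carrier := {χ | S χ ⊆ T}
  mul_mem' := fun {a b} ha hb => (h.hSm a b).trans (union_subset ha hb)
  one_mem' := by
    show S 1 ⊆ T
    rw [h.hS1]
    exact empty_subset _
  inv_mem' := fun {a} ha => (h.inv he a).trans ha

lemma bUnion (h : Lev Λ Fl e s ev w S A) {κ : Type} [DecidableEq κ] (R : Finset κ)
    (f : κ → Finset ι) (hf : ∀ i, A (f i)) : A (R.biUnion f) := by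
  induction R using Finset.induction_on with
  | empty => rw [biUnion_empty]; exact h.hA0
  | insert a R ha ih =>
    rw [biUnion_insert]
    exact h.hA _ _ (hf a) ih

end Lev

variable {Λ : Submodule ℤ ℂ} {𝔪 : Ideal (integralClosure ℤ ℂ)} {Fil : ℕ → Submodule ℤ ℂ}

theorem towerI {I : Type} [Finite I] (a0 : I) (hF : FilX Λ 𝔪 Fil) (n0 : ℕ) :
    ∃ L : ℕ → ℕ, ∀ (X U ι : Type) [CommGroup X] [DecidableEq ι] (e : ℕ) (_ : 0 < e)
      (_ : ∀ ζ : ℂ, ζ ^ e = 1 → ζ ∈ mulR Λ ∧
        ∃ y : integralClosure ℤ ℂ, (y : ℂ) = ζ - 1 ∧ y ∈ 𝔪)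
      (s : Finset ι → Finset U) (ev : Finset ι → U → X → ℂ) (w : Finset ι → U → ℂ)
      (S : X → Finset ι) (A : Finset ι → Prop) (_ : Lev Λ (Fil (n0 + 1)) e s ev w S A)
      (φ : I → ℕ → X), (∀ j, φ a0 j = 1) → (∀ a j, A (S (φ a j))) →
      ∃ B : ℕ → Finset ℕ, (∀ k, (B k).Nonempty ∧ B k ⊆ Ico (L k) (L (k + 1))) ∧
      ∀ (N : ℕ) (t : ℕ → I), ∃ T, A T ∧ S (∏ i ∈ range N, ∏ k ∈ B i, φ (t i) k) ⊆ T ∧
        (∑ u ∈ s T, w T u * ev T u (∏ i ∈ range N, ∏ k ∈ B i, φ (t i) k)) -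
          ∑ u ∈ s T, w T u ∈ Fil (n0 + 1) := by
  classical
  have hfin : Finite (Λ.map (Fil (n0 + 1)).mkQ) := hF.fin (n0 + 1)
  have : Fintype I := Fintype.ofFinite I
  choose Lc hLc using fun k : ℕ =>
    combI a0 n0 ((Fin k → I) → ↥(Λ.map (Fil (n0 + 1)).mkQ))
  set L : ℕ → ℕ := fun k => ∑ i ∈ range k, Lc i with hL
  have hL1 : ∀ k, L (k + 1) = L k + Lc k := fun k => sum_range_succ _ _
  refine ⟨L, fun X U ι _ _ e he hroot s ev w S A h φ hφ0 hφ => ?_⟩
  set TT : ℕ → Finset ι := fun N => (range (L N)).biUnion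
    (fun j => (univ : Finset I).biUnion fun a => S (φ a j)) with hTT
  have hATT : ∀ N, A (TT N) := fun N => h.bUnion _ _ fun j => h.bUnion _ _ fun a => hφ a j
  have hLmono : ∀ i j, i ≤ j → L i ≤ L j := by
    intro i j hij
    exact sum_le_sum_of_subset (range_subset_range.2 hij)
  have hφT : ∀ N a j, j < L N → S (φ a j) ⊆ TT N := by
    intro N a j hj
    refine Subset.trans ?_ (subset_biUnion_of_mem (fun j => (univ : Finset I).biUnion
      fun a => S (φ a j)) (mem_range.2 hj))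
    exact subset_biUnion_of_mem (fun a => S (φ a j)) (mem_univ a)
  have hSall : ∀ N : ℕ, ∀ v : ℕ → Finset ℕ, (∀ i < N, v i ⊆ Ico (L i) (L (i + 1))) → ∀ t : ℕ → I,
      S (∏ i ∈ range N, ∏ k ∈ v i, φ (t i) k) ⊆ TT N := by
    intro N v hv t
    refine h.prod _ _ fun i hi => h.prod _ _ fun k hk => hφT N _ _ ?_
    have hiN := mem_range.1 hi
    have h2 := mem_Ico.1 (hv i hiN hk)
    have h3 := hLmono (i + 1) N (by omega)
    omega
  -- the evaluation data on the subgroups
  have hevd : ∀ T, EvD (X := h.sub he T) (s T) (fun u χ => ev T u χ) := fun T =>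
    ⟨fun u hu => h.one T u hu, fun u hu χ ψ => h.mul T u hu _ _ χ.2 ψ.2⟩
  have hval : ∀ T, A T → ∀ χ : h.sub he T, (Fil (n0 + 1)).mkQ (∑ u ∈ s T, w T u * ev T u χ) ∈
      Λ.map (Fil (n0 + 1)).mkQ := by
    intro T hT χ
    refine Submodule.mem_map_of_mem (Submodule.sum_mem _ fun u hu => ?_)
    rw [mul_comm]
    have hev : ev T u χ ^ e = 1 := by
      have h1 := (hevd T).pow hu χ e
      have h2 : χ ^ e = 1 := Subtype.ext (by
        rw [Subgroup.coe_pow, Subgroup.coe_one]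
        exact h.hX _)
      rw [← h1, h2]
      exact h.one T u hu
    exact (hroot _ hev).1 _ (h.hw T hT u hu)
  -- the property of the blocks
  set Good : ℕ → (ℕ → Finset ℕ) → Prop := fun N v =>
    (∀ i < N, (v i).Nonempty ∧ v i ⊆ Ico (L i) (L (i + 1))) ∧ ∀ t : ℕ → I,
      (∑ u ∈ s (TT N), w (TT N) u * ev (TT N) u (∏ i ∈ range N, ∏ k ∈ v i, φ (t i) k)) -
        ∑ u ∈ s (TT N), w (TT N) u ∈ Fil (n0 + 1) with hGood
  have hG0 : Good 0 (fun _ => ∅) := by
    refine ⟨fun i hi => absurd hi (Nat.not_lt_zero i), fun t => ?_⟩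
    rw [range_zero, prod_empty, ← sum_sub_distrib]
    refine Submodule.sum_mem _ fun u hu => ?_
    rw [h.one _ u hu, mul_one, sub_self]
    exact Submodule.zero_mem _
  have hstep : ∀ N v, Good N v → ∃ v', Good (N + 1) v' ∧ ∀ i < N, v' i = v i := by
    intro N v hv
    obtain ⟨hv1, hv2⟩ := hv
    have hT1 := hATT N
    have hT2 := hATT (N + 1)
    have hT12 : TT N ⊆ TT (N + 1) :=
      biUnion_subset_biUnion_of_subset_left _ (range_subset_range.2 (hLmono _ _ (Nat.le_succ N)))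
    set T := TT (N + 1) with hT
    have hpd := PD.cod (Λ.map (Fil (n0 + 1)).mkQ) n0 _ (hval T hT2)
      (pd_sum hF hroot (fun χ : h.sub he T => Subtype.ext (by
        rw [Subgroup.coe_pow, Subgroup.coe_one]
        exact h.hX _)) (hevd T) (n0 + 1) n0 0 (by omega) (w T)
        fun u hu => (hF.zero _).2 (h.hw T hT2 u hu))
    -- the truncated sequences
    set Φ : I → ℕ → h.sub he T := fun a i =>
      if hi : i < Lc N then ⟨φ a (L N + i), hφT (N + 1) a _ (by rw [hL1]; omega)⟩ else 1 with hΦ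
    have hΦc : ∀ a, ∀ i < Lc N, ((Φ a i : h.sub he T) : X) = φ a (L N + i) := by
      intro a i hi
      simp only [hΦ]
      rw [dif_pos hi]
    obtain ⟨B, hB1, hB2, hB3⟩ := hLc N (h.sub he T) Φ (fun i => by
        simp only [hΦ]
        split_ifs with hi
        · exact Subtype.ext (hφ0 _)
        · rfl)
      (fun χ t => (⟨_, hval T hT2 (((⟨∏ i : Fin N, ∏ k ∈ v i, φ (t i) k, by
          refine h.prod _ _ fun i _ => h.prod _ _ fun k hk => hφT _ _ _ ?_
          have h2 := mem_Ico.1 ((hv1 i i.2).2 hk)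
          have h3 := hLmono (i + 1) (N + 1) (by have := i.2; omega)
          omega⟩ : h.sub he T)) * χ)⟩ :
        ↥(Λ.map (Fil (n0 + 1)).mkQ)))
      (PD.pi n0 _ fun t => PD.shift n0 _ hpd _)
    set W : Finset ℕ := B.map (addLeftEmbedding (L N)) with hW
    have hWprod : ∀ a, ∏ k ∈ W, φ a k = ((∏ i ∈ B, Φ a i : h.sub he T) : X) := by
      intro a
      rw [hW, prod_map, Subgroup.val_finset_prod]
      refine prod_congr rfl fun i hi => ?_
      rw [hΦc a i (mem_range.1 (hB1 hi))]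
      rfl
    have hlt : ∀ i ∈ range N, Function.update v N W i = v i := by
      intro i hi
      rw [Function.update_of_ne]
      have := mem_range.1 hi
      omega
    refine ⟨Function.update v N W, ⟨fun i hi => ?_, fun t => ?_⟩, fun i hi =>
      hlt i (mem_range.2 hi)⟩
    · by_cases hiN : i = N
      · subst hiN
        rw [Function.update_self]
        refine ⟨hB2.map, fun k hk => ?_⟩
        obtain ⟨b, hb, rfl⟩ := mem_map.1 hk
        have h1 := mem_range.1 (hB1 hb)
        rw [mem_Ico, hL1]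
        simp only [addLeftEmbedding_apply]
        omega
      · rw [Function.update_of_ne hiN]
        exact hv1 i (by omega)
    · rw [prod_range_succ, Function.update_self,
        prod_congr rfl (g := fun i => ∏ k ∈ v i, φ (t i) k) (fun i hi => by rw [hlt i hi])]
      have h1 := congrFun (hB3 (t N)) (fun i : Fin N => t i)
      have h2 : ∏ i : Fin N, ∏ k ∈ v i, φ (t i) k = ∏ i ∈ range N, ∏ k ∈ v i, φ (t i) k :=
        Fin.prod_univ_eq_prod_range (fun i => ∏ k ∈ v i, φ (t i) k) N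
      have h3 := congrArg Subtype.val h1
      simp only [mul_one, Subgroup.coe_mul] at h3
      rw [h2, ← hWprod] at h3
      have h4 := (Submodule.Quotient.eq _).1 h3
      have h5 := h.hmono (TT N) T hT1 hT2 hT12 _ (hSall N v (fun i hi => (hv1 i hi).2) t) (hv2 t)
      have h6 := Submodule.add_mem _ h4 h5
      rw [sub_add_sub_cancel] at h6
      exact h6
  -- the sequence of blocks
  choose! nx hnx1 hnx2 using hstep
  let st : ℕ → (ℕ → Finset ℕ) := fun N => Nat.rec (fun _ => ∅) (fun N v => nx N v) N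
  have hst0 : st 0 = fun _ => ∅ := rfl
  have hst1 : ∀ N, st (N + 1) = nx N (st N) := fun N => rfl
  have hstG : ∀ N, Good N (st N) := by
    intro N
    induction N with
    | zero => exact hG0
    | succ N ih =>
      rw [hst1]
      exact hnx1 N _ ih
  have hcoh : ∀ N i, i < N → st N i = st (i + 1) i := by
    intro N
    induction N with
    | zero => intro i hi; exact absurd hi (Nat.not_lt_zero i)
    | succ N ih =>
      intro i hi
      by_cases h1 : i = N
      · rw [h1]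
      · rw [hst1, hnx2 N _ (hstG N) i (by omega)]
        exact ih i (by omega)
  refine ⟨fun i => st (i + 1) i, fun k => (hstG (k + 1)).1 k (Nat.lt_succ_self k), fun N t => ?_⟩
  have h1 : ∏ i ∈ range N, ∏ k ∈ st (i + 1) i, φ (t i) k =
      ∏ i ∈ range N, ∏ k ∈ st N i, φ (t i) k :=
    prod_congr rfl fun i hi => by rw [hcoh N i (mem_range.1 hi)]
  refine ⟨TT N, hATT _, ?_, ?_⟩
  · rw [h1]
    exact hSall N _ (fun i hi => ((hstG N).1 i hi).2) t
  · rw [h1]
    exact (hstG N).2 t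

end Pool.Agent.H92
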